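import Pool.Agent.X0.InvB.Pos

set_option autoImplicit false

namespace Pool.Agent.X0.InvB

open Polynomial

noncomputable def e (n i : ℕ) : ℚ[X] := X ^ i * (1 + X) ^ (n - 2 * i)

noncomputable def th (f : ℚ[X]) : ℚ[X] := X * derivative f

noncomputable def opA (n : ℚ) (f : ℚ[X]) : ℚ[X] := (1 - X) * f + 2 * (1 - X) * th f + C (2 * n) * X * f

noncomputable def opJ (n : ℚ) (f : ℚ[X]) : ℚ[X] := (1 - X) * th f + C (n - 1) * X * f

noncomputable def opB (n : ℚ) (f : ℚ[X]) : ℚ[X] :=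
  2 * (1 - X) * th (opJ n f) + C (2 * n) * X * opJ n f + 2 * (1 - X) * opJ n f
    + C (n - 1) * (1 - X) ^ 2 * f

theorem th_add (f g : ℚ[X]) : th (f + g) = th f + th g := by
  unfold th; rw [derivative_add]; ring

theorem th_C_mul (a : ℚ) (f : ℚ[X]) : th (C a * f) = C a * th f := by
  unfold th; rw [derivative_C_mul]; ring

theorem th_mul (f g : ℚ[X]) : th (f * g) = th f * g + f * th g := by
  unfold th; rw [derivative_mul]; ring

theorem opA_add (n : ℚ) (f g : ℚ[X]) : opA n (f + g) = opA n f + opA n g := by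
  unfold opA; rw [th_add]; ring

theorem opA_C_mul (n a : ℚ) (f : ℚ[X]) : opA n (C a * f) = C a * opA n f := by
  unfold opA; rw [th_C_mul]; ring

theorem opJ_add (n : ℚ) (f g : ℚ[X]) : opJ n (f + g) = opJ n f + opJ n g := by
  unfold opJ; rw [th_add]; ring

theorem opJ_C_mul (n a : ℚ) (f : ℚ[X]) : opJ n (C a * f) = C a * opJ n f := by
  unfold opJ; rw [th_C_mul]; ring

theorem opB_add (n : ℚ) (f g : ℚ[X]) : opB n (f + g) = opB n f + opB n g := by
  unfold opB; rw [opJ_add, th_add]; ring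

theorem opB_C_mul (n a : ℚ) (f : ℚ[X]) : opB n (C a * f) = C a * opB n f := by
  unfold opB; rw [opJ_C_mul, th_C_mul]; ring

theorem opA_zero (n : ℚ) : opA n 0 = 0 := by simp [opA, th]
theorem opB_zero (n : ℚ) : opB n 0 = 0 := by simp [opB, opJ, th]

theorem opA_sum (n : ℚ) (s : Finset ℕ) (a : ℕ → ℚ) (f : ℕ → ℚ[X]) :
    opA n (∑ i ∈ s, C (a i) * f i) = ∑ i ∈ s, C (a i) * opA n (f i) := by
  classical
  induction s using Finset.induction_on with
  | empty => simp [opA_zero]
  | insert i s hi ih => rw [Finset.sum_insert hi, Finset.sum_insert hi, opA_add, opA_C_mul, ih]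

theorem opB_sum (n : ℚ) (s : Finset ℕ) (a : ℕ → ℚ) (f : ℕ → ℚ[X]) :
    opB n (∑ i ∈ s, C (a i) * f i) = ∑ i ∈ s, C (a i) * opB n (f i) := by
  classical
  induction s using Finset.induction_on with
  | empty => simp [opB_zero]
  | insert i s hi ih => rw [Finset.sum_insert hi, Finset.sum_insert hi, opB_add, opB_C_mul, ih]

theorem th_X_pow (i : ℕ) : th (X ^ i) = C (i : ℚ) * X ^ i := by
  unfold th
  rcases i with _ | i
  · simp
  · rw [derivative_X_pow]
    simp only [Nat.add_sub_cancel]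
    push_cast
    ring

theorem th_one_add_X_pow (j : ℕ) : th ((1 + X) ^ (j + 1)) = C ((j : ℚ) + 1) * X * (1 + X) ^ j := by
  unfold th
  rw [derivative_pow]
  simp
  ring

theorem opA_e (n i : ℕ) (h : 2 * i ≤ n) : opA (n + 1) (e n i) =
    C (2 * i + 1 : ℚ) * e (n + 1) i + C (4 * ((n : ℚ) - 2 * i)) * e (n + 1) (i + 1) := by
  obtain ⟨j, rfl⟩ := Nat.exists_eq_add_of_le h
  unfold e opA
  have h1 : 2 * i + j - 2 * i = j := by omega
  have h2 : 2 * i + j + 1 - 2 * i = j + 1 := by omega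
  rw [h1, h2]
  rcases j with _ | j
  · simp only [pow_zero, mul_one, th_X_pow]
    have : (C (4 * (((2 * i + 0 : ℕ) : ℚ) - 2 * i)) : ℚ[X]) = 0 := by
      push_cast; simp
    rw [this]
    simp only [map_add, map_mul, map_one, map_ofNat, map_natCast]
    push_cast
    ring
  · have h3 : 2 * i + (j + 1) + 1 - 2 * (i + 1) = j := by omega
    rw [h3, th_mul, th_X_pow, th_one_add_X_pow]
    have : (C (4 * (((2 * i + (j + 1) : ℕ) : ℚ) - 2 * i)) : ℚ[X]) = 4 * ((j : ℚ[X]) + 1) := by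
      push_cast
      rw [show (4 : ℚ) * (2 * i + (j + 1) - 2 * i) = 4 * (j + 1) by ring]
      simp only [map_add, map_mul, map_one, map_ofNat, map_natCast]
    rw [this]
    simp only [map_add, map_mul, map_one, map_ofNat, map_natCast]
    push_cast
    ring

theorem opB_e (n i : ℕ) (h : 2 * i ≤ n) : opB (n + 2) (e n i) =
    C (2 * (i : ℚ) ^ 2 + 2 * i + n + 1) * e (n + 2) i
    + C (4 * (n : ℚ) + 4 * i * (2 * (n + 2) - 3 - 4 * (i + 1))) * e (n + 2) (i + 1)
    + C (8 * ((n : ℚ) - 2 * i) * ((n : ℚ) - 1 - 2 * i)) * e (n + 2) (i + 2) := by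
  obtain ⟨j, rfl⟩ := Nat.exists_eq_add_of_le h
  unfold e opB opJ
  have h1 : 2 * i + j - 2 * i = j := by omega
  have h2 : 2 * i + j + 2 - 2 * i = j + 2 := by omega
  have h4 : 2 * i + j + 2 - 2 * (i + 1) = j := by omega
  rw [h1, h2, h4]
  match j with
  | 0 =>
    have z : (C (8 * (((2 * i + 0 : ℕ) : ℚ) - 2 * i) * (((2 * i + 0 : ℕ) : ℚ) - 1 - 2 * i)) : ℚ[X]) = 0 := by
      push_cast; simp
    rw [z]
    have hX : th (1 - X : ℚ[X]) = -X := by simp [th]
    have hX' : th (X : ℚ[X]) = X := by simp [th]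
    have hC : ∀ a : ℚ, th (C a) = 0 := fun a => by simp [th]
    simp only [pow_zero, mul_one, th_X_pow, th_add, th_mul, hX, hX', hC]
    simp only [map_add, map_mul, map_one, map_ofNat, map_natCast, map_sub, map_pow]
    push_cast
    ring
  | 1 =>
    have z : (C (8 * (((2 * i + 1 : ℕ) : ℚ) - 2 * i) * (((2 * i + 1 : ℕ) : ℚ) - 1 - 2 * i)) : ℚ[X]) = 0 := by
      push_cast; simp
    rw [z]
    have hX : th (1 - X : ℚ[X]) = -X := by simp [th]
    have hX' : th (X : ℚ[X]) = X := by simp [th]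
    have h1X : th (1 + X : ℚ[X]) = X := by simp [th]
    have hC : ∀ a : ℚ, th (C a) = 0 := fun a => by simp [th]
    have h1 : th (1 : ℚ[X]) = 0 := by simp [th]
    have h0 : th (0 : ℚ[X]) = 0 := by simp [th]
    simp only [pow_one, th_X_pow, th_add, th_mul, hX, hX', hC, h1X, h1, h0]
    simp only [map_add, map_mul, map_one, map_ofNat, map_natCast, map_sub, map_pow]
    push_cast
    ring
  | j + 2 =>
    have h3 : 2 * i + (j + 2) + 2 - 2 * (i + 2) = j := by omega
    rw [h3]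
    have hX : th (1 - X : ℚ[X]) = -X := by simp [th]
    have hX' : th (X : ℚ[X]) = X := by simp [th]
    have hC : ∀ a : ℚ, th (C a) = 0 := fun a => by simp [th]
    simp only [th_X_pow, th_one_add_X_pow, th_add, th_mul, hX, hX', hC]
    simp only [map_add, map_mul, map_one, map_ofNat, map_natCast, map_sub, map_pow]
    push_cast
    ring

end Pool.Agent.X0.InvB
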