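import Mathlib

set_option autoImplicit false

namespace Pool.Agent.X0.InvB

open Finset

/-- the involution on labelled points -/
def io (q : ℤ × ℤ) : ℤ × ℤ := (|q.2|, if 0 ≤ q.2 then q.1 else -q.1)

noncomputable def Om (m : ℕ) : Finset (ℤ × ℤ) :=
  ((Icc (0 : ℤ) m) ×ˢ (Icc (-(m : ℤ)) m)).filter (fun q => q.1 = 0 → 0 ≤ q.2)

theorem mem_Om {m : ℕ} {q : ℤ × ℤ} : q ∈ Om m ↔
    0 ≤ q.1 ∧ q.1 ≤ m ∧ -(m : ℤ) ≤ q.2 ∧ q.2 ≤ m ∧ (q.1 = 0 → 0 ≤ q.2) := by
  unfold Om
  rw [mem_filter, mem_product, mem_Icc, mem_Icc]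
  tauto

theorem io_mem {m : ℕ} {q : ℤ × ℤ} (h : q ∈ Om m) : io q ∈ Om m := by
  rw [mem_Om] at h ⊢
  obtain ⟨h1, h2, h3, h4, h5⟩ := h
  unfold io
  rcases le_or_gt 0 q.2 with hb | hb
  · simp only [if_pos hb, abs_of_nonneg hb]
    refine ⟨hb, h4, by omega, h2, fun _ => h1⟩
  · simp only [if_neg (not_le.mpr hb), abs_of_neg hb]
    refine ⟨by omega, by omega, by omega, by omega, fun h => by omega⟩

theorem io_io {m : ℕ} {q : ℤ × ℤ} (h : q ∈ Om m) : io (io q) = q := by
  rw [mem_Om] at h
  obtain ⟨h1, h2, h3, h4, h5⟩ := h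
  unfold io
  rcases le_or_gt 0 q.2 with hb | hb
  · simp only [if_pos hb, if_pos h1, abs_of_nonneg hb, abs_of_nonneg h1]
  · have ha : 0 < q.1 := by
      rcases lt_or_eq_of_le h1 with h | h
      · exact h
      · have := h5 h.symm; omega
    have ha' : ¬ (0 ≤ - q.1) := by omega
    simp only [if_neg (not_le.mpr hb), abs_of_neg hb, if_neg ha', abs_neg, abs_of_nonneg h1, neg_neg]

theorem io_neg {m : ℕ} {q : ℤ × ℤ} (h : q ∈ Om m) : (io q).2 < 0 ↔ q.2 < 0 := by
  rw [mem_Om] at h
  obtain ⟨h1, h2, h3, h4, h5⟩ := h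
  unfold io
  rcases le_or_gt 0 q.2 with hb | hb
  · simp only [if_pos hb]
    constructor
    · intro h; omega
    · intro h; omega
  · simp only [if_neg (not_le.mpr hb)]
    have ha : 0 < q.1 := by
      rcases lt_or_eq_of_le h1 with h | h
      · exact h
      · have := h5 h.symm; omega
    constructor
    · intro _; exact hb
    · intro _; omega

theorem io_fst {q : ℤ × ℤ} : (io q).1 = |q.2| := rfl

def val {n : ℕ} (σ : Equiv.Perm (Fin n)) (ε : Fin n → Bool) (i : Fin n) : ℤ :=
  (if ε i then (-1 : ℤ) else 1) * (((σ i : ℕ) : ℤ) + 1)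

structure Good {n : ℕ} (m : ℕ) (σ : Equiv.Perm (Fin n)) (ε : Fin n → Bool) (s : Fin n → ℕ) : Prop where
  inv : ∀ i, σ (σ i) = i
  eps : ∀ i, ε (σ i) = ε i
  mono : Monotone s
  desc : ∀ i j, i < j → s i = s j → val σ ε i < val σ ε j
  zero : ∀ i, s i = 0 → ε i = false
  bd : ∀ i, s i ≤ m

def pt {n : ℕ} (σ : Equiv.Perm (Fin n)) (ε : Fin n → Bool) (s : Fin n → ℕ) (i : Fin n) : ℤ × ℤ :=
  ((s i : ℤ), (if ε i then (-1 : ℤ) else 1) * (s (σ i) : ℤ))

/-- on fibres of `p`, `σ` is increasing (decreasing on negative fibres) -/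
def Mprop {n : ℕ} (σ : Equiv.Perm (Fin n)) (p : Fin n → ℤ × ℤ) : Prop :=
  ∀ i j, i < j → p i = p j → if (p i).2 < 0 then σ j < σ i else σ i < σ j

section
variable {n m : ℕ} {σ : Equiv.Perm (Fin n)} {ε : Fin n → Bool} {s : Fin n → ℕ}

theorem Good.neg (h : Good m σ ε s) (i : Fin n) : (pt σ ε s i).2 < 0 ↔ ε i = true := by
  unfold pt
  cases he : ε i
  · simp
  · have : s (σ i) ≠ 0 := by
      intro h0
      have := h.zero _ h0
      rw [h.eps, he] at this
      exact absurd this (by simp)
    simp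
    omega

theorem Good.io (h : Good m σ ε s) (i : Fin n) : pt σ ε s (σ i) = io (pt σ ε s i) := by
  have hn := h.neg i
  unfold InvB.io
  unfold pt at hn ⊢
  simp only [h.inv, h.eps] at hn ⊢
  cases he : ε i
  · rw [he] at hn
    simp
  · rw [he] at hn
    simp only [if_true, iff_true] at hn
    simp only [if_true]
    rw [if_neg (not_le.mpr hn)]
    simp

theorem Good.mem (h : Good m σ ε s) (i : Fin n) : pt σ ε s i ∈ Om m := by
  rw [mem_Om]
  have h1 := h.bd i
  have h2 := h.bd (σ i)
  have h3 := h.zero i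
  unfold pt
  cases he : ε i
  · simp
    omega
  · rw [he] at h3
    simp only [reduceCtorEq, imp_false] at h3
    simp
    omega

theorem Good.lex (h : Good m σ ε s) : Monotone (fun i => toLex (pt σ ε s i)) := by
  intro i j hij
  rcases hij.eq_or_lt with rfl | hij
  · exact le_refl _
  · rw [Prod.Lex.toLex_le_toLex]
    unfold pt
    simp only
    rcases (h.mono hij.le).eq_or_lt with he | hlt
    · right
      refine ⟨by exact_mod_cast he, ?_⟩
      have hd := h.desc i j hij he
      unfold val at hd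
      cases h1 : ε i <;> cases h2 : ε j <;> simp only [h1, h2] at hd ⊢
      · simp only [Bool.false_eq_true, if_false, one_mul] at hd ⊢
        have : σ i < σ j := by
          rw [Fin.lt_def]; omega
        exact_mod_cast h.mono this.le
      · simp at hd; omega
      · simp
      · simp only [if_true] at hd ⊢
        have : σ j < σ i := by
          rw [Fin.lt_def]; omega
        have := h.mono this.le
        omega
    · left
      exact_mod_cast hlt

theorem Good.mprop (h : Good m σ ε s) : Mprop σ (pt σ ε s) := by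
  intro i j hij hp
  have hs : s i = s j := by
    have := congrArg Prod.fst hp
    unfold pt at this
    simp only at this
    exact_mod_cast this
  have hd := h.desc i j hij hs
  unfold val at hd
  have n1 := h.neg i
  have n2 := h.neg j
  rw [← hp] at n2
  split_ifs with hneg
  · have e1 := n1.mp hneg
    have e2 := n2.mp hneg
    rw [e1, e2] at hd
    simp only [if_true] at hd
    rw [Fin.lt_def]; omega
  · have e1 : ε i = false := by
      cases h' : ε i
      · rfl
      · exact absurd (n1.mpr h') hneg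
    have e2 : ε j = false := by
      cases h' : ε j
      · rfl
      · exact absurd (n2.mpr h') hneg
    rw [e1, e2] at hd
    simp only [Bool.false_eq_true, if_false, one_mul] at hd
    rw [Fin.lt_def]; omega

end

theorem strictMono_perm {n : ℕ} (τ : Fin n → Fin n) (hτ : StrictMono τ) (i : Fin n) : τ i = i := by
  have hs : Function.Surjective τ := (Finite.injective_iff_surjective).mp hτ.injective
  have := Subsingleton.elim (hτ.orderIsoOfSurjective τ hs) (OrderIso.refl (Fin n))
  have h2 := congrArg (fun f : Fin n ≃o Fin n => f i) this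
  simpa using h2

theorem uniq {n m : ℕ} {p : Fin n → ℤ × ℤ} (hmono : Monotone (fun i => toLex (p i)))
    (hmem : ∀ i, p i ∈ Om m) {σ σ' : Equiv.Perm (Fin n)} (h1 : ∀ i, p (σ i) = io (p i))
    (h2 : ∀ i, p (σ' i) = io (p i)) (m1 : Mprop σ p) (m2 : Mprop σ' p) (i : Fin n) :
    σ' (σ i) = i := by
  apply strictMono_perm (fun i => σ' (σ i))
  intro i j hij
  have hp : ∀ k, p (σ' (σ k)) = p k := fun k => by rw [h2, h1, io_io (hmem k)]
  by_cases hpe : p i = p j
  · have s1 := m1 i j hij hpe
    have hpσ : p (σ j) = p (σ i) := by rw [h1, h1, hpe]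
    have hsg : (p (σ i)).2 < 0 ↔ (p i).2 < 0 := by rw [h1, io_neg (hmem i)]
    split_ifs at s1 with hn
    · have s2 := m2 _ _ s1 hpσ
      rw [hpσ, if_pos (hsg.mpr hn)] at s2
      exact s2
    · have s2 := m2 _ _ s1 hpσ.symm
      rw [if_neg (fun h => hn (hsg.mp h))] at s2
      exact s2
  · by_contra hcon
    have h3 : σ' (σ j) ≤ σ' (σ i) := not_lt.mp hcon
    have h4 := hmono h3
    simp only [hp] at h4
    have h5 := hmono hij.le
    simp only at h5
    exact hpe (toLex.injective (le_antisymm h5 h4))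

/-- monotone tuples with the same fibre sizes are equal -/
theorem eq_of_counts {n : ℕ} {β : Type} [LinearOrder β] {f g : Fin n → β} (hf : Monotone f)
    (hg : Monotone g) (h : ∀ x, (univ.filter (fun i => f i = x)).card = (univ.filter (fun i => g i = x)).card) :
    f = g := by
  classical
  apply List.ofFn_injective
  apply List.Perm.eq_of_sortedLE (List.sortedLE_ofFn_iff.mpr hf) (List.sortedLE_ofFn_iff.mpr hg)
  rw [← Multiset.coe_eq_coe, ← Fin.univ_val_map, ← Fin.univ_val_map]
  ext x
  have := h x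
  rw [Multiset.count_map, Multiset.count_map]
  have e1 : ∀ f : Fin n → β, (Multiset.filter (fun i => x = f i) (univ : Finset (Fin n)).val).card =
      (univ.filter (fun i => f i = x)).card := by
    intro f
    rw [Finset.card_def, Finset.filter_val]
    congr 1
    apply Multiset.filter_congr
    intro i _
    exact eq_comm
  rw [e1, e1, this]

end Pool.Agent.X0.InvB
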