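import Mathlib

set_option autoImplicit false

namespace Pool.Agent.X0.InvB

open Finset

section
variable {α : Type} [DecidableEq α] (Om : Finset α) (io : α → α)

/-- invariant multisets of size `n` on `Om`, as multiplicity functions -/
def Z (n : ℕ) : Finset (α → ℕ) := (Finset.piAntidiag Om n).filter (fun c => ∀ q ∈ Om, c (io q) = c q)

variable {Om io}

theorem mem_Z {n : ℕ} {c : α → ℕ} : c ∈ Z Om io n ↔
    (∑ x ∈ Om, c x = n ∧ ∀ x, c x ≠ 0 → x ∈ Om) ∧ ∀ q ∈ Om, c (io q) = c q := by
  unfold Z
  rw [mem_filter, Finset.mem_piAntidiag]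

variable (hio : ∀ q ∈ Om, io q ∈ Om) (hinv : ∀ q ∈ Om, io (io q) = q)

/-- indicator of the orbit of `q` -/
def ind (io : α → α) (q : α) (x : α) : ℕ := if x ∈ ({q, io q} : Finset α) then 1 else 0

include hio hinv

theorem ind_inv {q x : α} (hq : q ∈ Om) (hx : x ∈ Om) : ind io q (io x) = ind io q x := by
  unfold ind
  have : io x ∈ ({q, io q} : Finset α) ↔ x ∈ ({q, io q} : Finset α) := by
    simp only [mem_insert, mem_singleton]
    constructor
    · rintro (h | h)
      · right; rw [← h, hinv x hx]
      · left
        have := congrArg io h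
        rwa [hinv x hx, hinv q hq] at this
    · rintro (h | h)
      · right; rw [h]
      · left; rw [h, hinv q hq]
  simp only [this]

theorem step {q : α} (hq : q ∈ Om) (n : ℕ) :
    ∑ c ∈ Z Om io (n + ({q, io q} : Finset α).card), c q =
      (Z Om io n).card + ∑ c ∈ Z Om io n, c q := by
  have hsum : ∑ x ∈ Om, ind io q x = ({q, io q} : Finset α).card := by
    unfold ind
    rw [Finset.sum_ite_mem, Finset.card_eq_sum_ones]
    congr 1
    rw [Finset.inter_eq_right]
    intro x hx
    simp only [mem_insert, mem_singleton] at hx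
    rcases hx with rfl | rfl
    · exact hq
    · exact hio q hq
  have hR : (Z Om io n).card + ∑ c ∈ Z Om io n, c q = ∑ c ∈ Z Om io n, (1 + c q) := by
    rw [sum_add_distrib, Finset.card_eq_sum_ones]
  rw [hR, ← Finset.sum_filter_ne_zero]
  apply Finset.sum_bij' (fun c _ => fun x => c x - ind io q x) (fun c _ => fun x => c x + ind io q x)
  · intro c hc
    rw [mem_filter, mem_Z] at hc
    obtain ⟨⟨⟨h1, h2⟩, h3⟩, h4⟩ := hc
    have hle : ∀ x, ind io q x ≤ c x := by
      intro x
      unfold ind
      split_ifs with h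
      · simp only [mem_insert, mem_singleton] at h
        rcases h with rfl | rfl
        · omega
        · rw [h3 q hq]; omega
      · omega
    rw [mem_Z]
    refine ⟨⟨?_, fun x hx => h2 x (by omega)⟩, fun x hx => ?_⟩
    · have h5 : ∑ x ∈ Om, (c x - ind io q x) + ∑ x ∈ Om, ind io q x = ∑ x ∈ Om, c x := by
        rw [← sum_add_distrib]
        apply sum_congr rfl
        intro x _
        have := hle x
        omega
      omega
    · rw [h3 x hx, ind_inv hio hinv hq hx]
  · intro c hc
    rw [mem_Z] at hc
    obtain ⟨⟨h1, h2⟩, h3⟩ := hc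
    rw [mem_filter, mem_Z]
    refine ⟨⟨⟨?_, fun x hx => ?_⟩, fun x hx => ?_⟩, ?_⟩
    · rw [sum_add_distrib, h1, hsum]
    · by_cases h : c x = 0
      · have : ind io q x ≠ 0 := by
          intro h'
          exact hx (by rw [h, h'])
        unfold ind at this
        split_ifs at this with h5
        · simp only [mem_insert, mem_singleton] at h5
          rcases h5 with rfl | rfl
          · exact hq
          · exact hio q hq
        · exact absurd rfl this
      · exact h2 x h
    · rw [h3 x hx, ind_inv hio hinv hq hx]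
    · unfold ind
      simp
  · intro c hc
    rw [mem_filter, mem_Z] at hc
    obtain ⟨⟨⟨h1, h2⟩, h3⟩, h4⟩ := hc
    funext x
    have hle : ind io q x ≤ c x := by
      unfold ind
      split_ifs with h
      · simp only [mem_insert, mem_singleton] at h
        rcases h with rfl | rfl
        · omega
        · rw [h3 q hq]; omega
      · omega
    exact Nat.sub_add_cancel hle
  · intro c hc
    funext x
    exact Nat.add_sub_cancel (c x) (ind io q x)
  · intro c hc
    rw [mem_filter] at hc
    have : ind io q q = 1 := by unfold ind; simp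
    show c q = 1 + (c q - ind io q q)
    rw [this]
    have := hc.2
    omega

omit hio hinv in
theorem sum_all (n : ℕ) : ∑ q ∈ Om, ∑ c ∈ Z Om io n, c q = n * (Z Om io n).card := by
  rw [sum_comm, mul_comm, ← smul_eq_mul, ← Finset.sum_const]
  apply sum_congr rfl
  intro c hc
  exact (mem_Z.mp hc).1.1

theorem rec_Z (n : ℕ) : (n + 2) * (Z Om io (n + 2)).card =
    (Om.filter (fun q => io q = q)).card * (Z Om io (n + 1)).card + (Om.card + n) * (Z Om io n).card := by
  rw [← sum_all (Om := Om) (io := io) (n + 2)]
  rw [← Finset.sum_filter_add_sum_filter_not Om (fun q => io q = q)]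
  have h1 : ∑ q ∈ Om.filter (fun q => io q = q), ∑ c ∈ Z Om io (n + 2), c q =
      ∑ q ∈ Om.filter (fun q => io q = q), ((Z Om io (n + 1)).card + (Z Om io n).card
        + ∑ c ∈ Z Om io n, c q) := by
    apply sum_congr rfl
    intro q hq
    rw [mem_filter] at hq
    have s1 := step hio hinv hq.1 n
    have s2 := step hio hinv hq.1 (n + 1)
    have : ({q, io q} : Finset α).card = 1 := by rw [hq.2]; simp
    rw [this] at s1 s2
    rw [show n + 2 = n + 1 + 1 by ring, s2, s1]
    ring
  have h2 : ∑ q ∈ Om.filter (fun q => ¬ io q = q), ∑ c ∈ Z Om io (n + 2), c q =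
      ∑ q ∈ Om.filter (fun q => ¬ io q = q), ((Z Om io n).card + ∑ c ∈ Z Om io n, c q) := by
    apply sum_congr rfl
    intro q hq
    rw [mem_filter] at hq
    have s1 := step hio hinv hq.1 n
    have : ({q, io q} : Finset α).card = 2 := Finset.card_pair (fun h => hq.2 h.symm)
    rw [this] at s1
    rw [s1]
  rw [h1, h2]
  simp only [sum_add_distrib]
  have h3 := sum_all (Om := Om) (io := io) n
  rw [← Finset.sum_filter_add_sum_filter_not Om (fun q => io q = q)] at h3
  have h4 : Om.card = (Om.filter (fun q => io q = q)).card + (Om.filter (fun q => ¬ io q = q)).card :=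
    (Finset.card_filter_add_card_filter_not (fun q => io q = q)).symm
  simp only [Finset.sum_const, smul_eq_mul]
  generalize (∑ q ∈ Om.filter (fun q => io q = q), ∑ c ∈ Z Om io n, c q) = A at *
  generalize (∑ q ∈ Om.filter (fun q => ¬ io q = q), ∑ c ∈ Z Om io n, c q) = B at *
  rw [h4]
  nlinarith

omit hio hinv in
theorem Z_zero : (Z Om io 0).card = 1 := by
  rw [Finset.card_eq_one]
  refine ⟨fun _ => 0, ?_⟩
  ext c
  rw [mem_Z, mem_singleton]
  constructor
  · rintro ⟨⟨h1, h2⟩, _⟩
    funext x
    by_contra h
    have := h2 x h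
    rw [Finset.sum_eq_zero_iff] at h1
    exact h (h1 x this)
  · rintro rfl
    simp

theorem Z_one : (Z Om io 1).card = (Om.filter (fun q => io q = q)).card := by
  have h := sum_all (Om := Om) (io := io) 1
  rw [one_mul] at h
  rw [← h, ← Finset.sum_filter_add_sum_filter_not Om (fun q => io q = q)]
  have h1 : ∑ q ∈ Om.filter (fun q => io q = q), ∑ c ∈ Z Om io 1, c q =
      ∑ q ∈ Om.filter (fun q => io q = q), 1 := by
    apply sum_congr rfl
    intro q hq
    rw [mem_filter] at hq
    have s1 := step hio hinv hq.1 0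
    have : ({q, io q} : Finset α).card = 1 := by rw [hq.2]; simp
    rw [this, Z_zero] at s1
    rw [show (1 : ℕ) = 0 + 1 by ring, s1]
    have : ∑ c ∈ Z Om io 0, c q = 0 := by
      apply Finset.sum_eq_zero
      intro c hc
      rw [mem_Z] at hc
      have := hc.1.1
      rw [Finset.sum_eq_zero_iff] at this
      exact this q hq.1
    rw [this]
  have h2 : ∑ q ∈ Om.filter (fun q => ¬ io q = q), ∑ c ∈ Z Om io 1, c q = 0 := by
    apply Finset.sum_eq_zero
    intro q hq
    rw [mem_filter] at hq
    apply Finset.sum_eq_zero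
    intro c hc
    rw [mem_Z] at hc
    have e1 : ∑ x ∈ ({q, io q} : Finset α), c x ≤ 1 := by
      rw [← hc.1.1]
      apply Finset.sum_le_sum_of_subset
      intro x hx
      simp only [mem_insert, mem_singleton] at hx
      rcases hx with rfl | rfl
      · exact hq.1
      · exact hio q hq.1
    rw [Finset.sum_pair (fun h => hq.2 h.symm), hc.2 q hq.1] at e1
    omega
  rw [h1, h2, Finset.sum_const, smul_eq_mul, mul_one, add_zero]

end

end Pool.Agent.X0.InvB
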