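import Pool.Agent.X0.InvB.Bij
import Pool.Agent.X0.InvB.Dbl

set_option autoImplicit false

namespace Pool.Agent.X0.InvB

open Finset

/-- number of indices with `p i = q` -/
def cnt {n : ℕ} (p : Fin n → ℤ × ℤ) (q : ℤ × ℤ) : ℕ := (univ.filter (fun i => p i = q)).card

theorem cnt_io {n m : ℕ} {p : Fin n → ℤ × ℤ} (hmem : ∀ i, p i ∈ Om m) {σ : Equiv.Perm (Fin n)}
    (h1 : ∀ i, p (σ i) = io (p i)) {q : ℤ × ℤ} (hq : q ∈ Om m) : cnt p (io q) = cnt p q := by
  unfold cnt
  symm
  apply Finset.card_bij (fun i _ => σ i)
  · intro i hi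
    rw [mem_filter] at hi ⊢
    exact ⟨mem_univ _, by rw [h1, hi.2]⟩
  · intro i _ j _ hij
    exact σ.injective hij
  · intro j hj
    rw [mem_filter] at hj
    refine ⟨σ.symm j, ?_, by simp⟩
    rw [mem_filter]
    refine ⟨mem_univ _, ?_⟩
    have h2 := h1 (σ.symm j)
    rw [Equiv.apply_symm_apply, hj.2] at h2
    have h3 := congrArg io h2
    rw [io_io hq, io_io (hmem _)] at h3
    exact h3.symm

theorem cnt_mem {n m : ℕ} {p : Fin n → ℤ × ℤ} (hmem : ∀ i, p i ∈ Om m) {σ : Equiv.Perm (Fin n)}
    (h1 : ∀ i, p (σ i) = io (p i)) : cnt p ∈ Z (Om m) io n := by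
  rw [mem_Z]
  refine ⟨⟨?_, ?_⟩, fun q hq => cnt_io hmem h1 hq⟩
  · have := Finset.card_eq_sum_card_fiberwise (s := (univ : Finset (Fin n))) (t := Om m) (f := p)
      (fun i _ => hmem i)
    rw [Finset.card_univ, Fintype.card_fin] at this
    exact this.symm
  · intro x hx
    unfold cnt at hx
    rw [Finset.card_ne_zero] at hx
    obtain ⟨i, hi⟩ := hx
    rw [mem_filter] at hi
    rw [← hi.2]
    exact hmem i

/-- every multiplicity function is realised by a lex-monotone tuple -/
theorem exists_tuple {n m : ℕ} {c : ℤ × ℤ → ℕ} (hc : c ∈ Z (Om m) io n) :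
    ∃ p : Fin n → ℤ × ℤ, Monotone (fun i => toLex (p i)) ∧ (∀ i, p i ∈ Om m) ∧ cnt p = c := by
  classical
  rw [mem_Z] at hc
  obtain ⟨⟨h1, h2⟩, h3⟩ := hc
  set S : Finset (Σ _ : ℤ × ℤ, ℕ) := (Om m).sigma (fun q => range (c q)) with hS
  have hcard : S.card = n := by
    rw [hS, Finset.card_sigma]
    simp only [card_range]
    exact h1
  let e := Finset.equivFinOfCardEq hcard
  let f : Fin n → ℤ × ℤ := fun i => (e.symm i).1.1
  have hf : ∀ q, (univ.filter (fun i => f i = q)).card = c q := by
    intro q
    have h4 : (univ.filter (fun i => f i = q)).card = (S.filter (fun x => x.1 = q)).card := by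
      apply Finset.card_bij (fun i _ => (e.symm i).1)
      · intro i hi
        rw [mem_filter] at hi ⊢
        exact ⟨(e.symm i).2, hi.2⟩
      · intro i _ j _ hij
        exact e.symm.injective (Subtype.ext hij)
      · intro x hx
        rw [mem_filter] at hx
        refine ⟨e ⟨x, hx.1⟩, ?_, by simp⟩
        rw [mem_filter]
        refine ⟨mem_univ _, ?_⟩
        show ((e.symm (e ⟨x, hx.1⟩)).1).1 = q
        rw [Equiv.symm_apply_apply]
        exact hx.2
    rw [h4]
    by_cases hq : c q = 0
    · rw [hq, Finset.card_eq_zero, Finset.filter_eq_empty_iff]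
      rintro ⟨x, k⟩ hx rfl
      rw [hS, mem_sigma, hq] at hx
      simp at hx
    · have hqm := h2 q hq
      rw [← Finset.card_range (c q)]
      apply Finset.card_bij (fun x _ => x.2)
      · rintro ⟨x, k⟩ hx
        rw [mem_filter, hS, mem_sigma] at hx
        have := hx.2
        simp only at this
        subst this
        exact hx.1.2
      · rintro ⟨x, k⟩ hx ⟨y, l⟩ hy hkl
        rw [mem_filter] at hx hy
        have e1 := hx.2
        have e2 := hy.2
        simp only at e1 e2 hkl
        subst e1
        subst e2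
        subst hkl
        rfl
      · intro k hk
        refine ⟨⟨q, k⟩, ?_, rfl⟩
        rw [mem_filter, hS, mem_sigma]
        exact ⟨⟨hqm, hk⟩, rfl⟩
  let g : Fin n → ℤ ×ₗ ℤ := fun i => toLex (f i)
  refine ⟨fun i => f (Tuple.sort g i), Tuple.monotone_sort g, fun i => ?_, ?_⟩
  · have h5 : (e.symm (Tuple.sort g i)).1 ∈ (Om m).sigma (fun q => range (c q)) :=
      (e.symm (Tuple.sort g i)).2
    exact (Finset.mem_sigma.mp h5).1
  · funext q
    rw [← hf q]
    unfold cnt
    apply Finset.card_bij (fun i _ => Tuple.sort g i)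
    · intro i hi
      rw [mem_filter] at hi ⊢
      exact ⟨mem_univ _, hi.2⟩
    · intro i _ j _ hij
      exact (Tuple.sort g).injective hij
    · intro j hj
      refine ⟨(Tuple.sort g).symm j, ?_, by simp⟩
      rw [mem_filter] at hj ⊢
      refine ⟨mem_univ _, ?_⟩
      show f (Tuple.sort g ((Tuple.sort g).symm j)) = q
      rw [Equiv.apply_symm_apply]
      exact hj.2

theorem exists_good {n m : ℕ} {p : Fin n → ℤ × ℤ} (hmono : Monotone (fun i => toLex (p i)))
    (hmem : ∀ i, p i ∈ Om m) (hcnt : ∀ q ∈ Om m, cnt p (io q) = cnt p q) :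
    ∃ (σ : Equiv.Perm (Fin n)) (ε : Fin n → Bool) (s : Fin n → ℕ), Good m σ ε s ∧ pt σ ε s = p := by
  classical
  let key : Fin n → (ℤ ×ₗ ℤ) ×ₗ ℤ := fun i =>
    toLex (toLex (io (p i)), if (p i).2 < 0 then -(i : ℤ) else (i : ℤ))
  let σ := Tuple.sort key
  have hkey : Monotone (key ∘ σ) := Tuple.monotone_sort key
  have hk : ∀ i j, i ≤ j → (toLex (io (p (σ i))) < toLex (io (p (σ j))) ∨
      (toLex (io (p (σ i))) = toLex (io (p (σ j))) ∧
        (if (p (σ i)).2 < 0 then -((σ i : ℕ) : ℤ) else ((σ i : ℕ) : ℤ)) ≤
        (if (p (σ j)).2 < 0 then -((σ j : ℕ) : ℤ) else ((σ j : ℕ) : ℤ)))) := by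
    intro i j hij
    have := hkey hij
    simp only [key, Function.comp] at this
    rw [Prod.Lex.toLex_le_toLex] at this
    exact this
  have hiom : Monotone (fun i => toLex (io (p (σ i)))) := by
    intro i j hij
    rcases hk i j hij with h | h
    · exact h.le
    · exact h.1.le
  have heq : (fun i => toLex (io (p (σ i)))) = fun i => toLex (p i) := by
    apply eq_of_counts hiom hmono
    intro x
    have e1 : (univ.filter (fun i => toLex (io (p (σ i))) = x)).card =
        (univ.filter (fun i => io (p i) = ofLex x)).card := by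
      apply Finset.card_bij (fun i _ => σ i)
      · intro i hi
        rw [mem_filter] at hi ⊢
        exact ⟨mem_univ _, by rw [← hi.2]; rfl⟩
      · intro i _ j _ hij
        exact σ.injective hij
      · intro j hj
        refine ⟨σ.symm j, ?_, by simp⟩
        rw [mem_filter] at hj ⊢
        refine ⟨mem_univ _, ?_⟩
        rw [Equiv.apply_symm_apply, hj.2]
        rfl
    have e2 : (univ.filter (fun i => toLex (p i) = x)).card = cnt p (ofLex x) := rfl
    rw [e1, e2]
    by_cases hx : ofLex x ∈ Om m
    · rw [← hcnt _ hx]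
      unfold cnt
      congr 1
      ext i
      simp only [mem_filter, mem_univ, true_and]
      constructor
      · intro h
        have := congrArg io h
        rwa [io_io (hmem i)] at this
      · intro h
        rw [h, io_io hx]
    · have z1 : (univ.filter (fun i => io (p i) = ofLex x)) = ∅ := by
        rw [Finset.filter_eq_empty_iff]
        intro i _ h
        exact hx (h ▸ io_mem (hmem i))
      have z2 : cnt p (ofLex x) = 0 := by
        unfold cnt
        rw [Finset.card_eq_zero, Finset.filter_eq_empty_iff]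
        intro i _ h
        exact hx (h ▸ hmem i)
      rw [z1, z2, card_empty]
  have hσ' : ∀ i, io (p (σ i)) = p i := fun i => toLex.injective (congrFun heq i)
  have hσ : ∀ i, p (σ i) = io (p i) := by
    intro i
    rw [← hσ' i, io_io (hmem _)]
  have hsg : ∀ i, (p (σ i)).2 < 0 ↔ (p i).2 < 0 := fun i => by rw [hσ i, io_neg (hmem i)]
  have hM : Mprop σ p := by
    intro i j hij hp
    have hne : σ i ≠ σ j := fun h => hij.ne (σ.injective h)
    rcases hk i j hij.le with h | h
    · exfalso
      rw [hσ', hσ', hp] at h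
      exact lt_irrefl _ h
    · have h2 := h.2
      have hsj : (p (σ j)).2 < 0 ↔ (p i).2 < 0 := by rw [hsg j, hp]
      split_ifs with hn
      · rw [if_pos ((hsg i).mpr hn), if_pos (hsj.mpr hn)] at h2
        apply lt_of_le_of_ne _ hne.symm
        rw [Fin.le_def]
        omega
      · rw [if_neg (fun h => hn ((hsg i).mp h)), if_neg (fun h => hn (hsj.mp h))] at h2
        apply lt_of_le_of_ne _ hne
        rw [Fin.le_def]
        omega
  have hinv : ∀ i, σ (σ i) = i := fun i => uniq hmono hmem hσ hσ hM hM i
  let s : Fin n → ℕ := fun i => (p i).1.toNat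
  let ε : Fin n → Bool := fun i => decide ((p i).2 < 0)
  have hs : ∀ i, (s i : ℤ) = (p i).1 := fun i => Int.toNat_of_nonneg (mem_Om.mp (hmem i)).1
  have hlex : ∀ i j, i ≤ j → ((p i).1 < (p j).1 ∨ ((p i).1 = (p j).1 ∧ (p i).2 ≤ (p j).2)) := by
    intro i j hij
    have := hmono hij
    simp only at this
    rwa [Prod.Lex.toLex_le_toLex] at this
  have hεt : ∀ i, ε i = true ↔ (p i).2 < 0 := fun i => by simp [ε]
  refine ⟨σ, ε, s, ⟨hinv, ?_, ?_, ?_, ?_, ?_⟩, ?_⟩
  · intro i
    simp only [ε, hsg i]
  · intro i j hij
    have h1 := hs i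
    have h2 := hs j
    rcases hlex i j hij with h | h
    · omega
    · have := h.1; omega
  · intro i j hij hsij
    have h1 := hs i
    have h2 := hs j
    have hfst : (p i).1 = (p j).1 := by rw [← h1, ← h2, hsij]
    have hsnd : (p i).2 ≤ (p j).2 := by
      rcases hlex i j hij.le with h | h
      · omega
      · exact h.2
    have key1 : ∀ k l, toLex (p (σ k)) < toLex (p (σ l)) → σ k < σ l := by
      intro k l h
      by_contra hcon
      exact absurd (hmono (not_lt.mp hcon)) (not_le.mpr h)
    unfold val
    by_cases hi : (p i).2 < 0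
    · by_cases hj : (p j).2 < 0
      · rw [(hεt i).mpr hi, (hεt j).mpr hj]
        simp only [if_true]
        have : σ j < σ i := by
          by_cases he : (p i).2 = (p j).2
          · have := hM i j hij (Prod.ext hfst he)
            rwa [if_pos hi] at this
          · apply key1
            rw [hσ, hσ, Prod.Lex.toLex_lt_toLex]
            left
            rw [io_fst, io_fst, abs_of_neg hi, abs_of_neg hj]
            omega
        rw [Fin.lt_def] at this
        omega
      · have e2 : ε j = false := by
          cases h : ε j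
          · rfl
          · exact absurd ((hεt j).mp h) hj
        rw [(hεt i).mpr hi, e2]
        simp only [if_true, Bool.false_eq_true, if_false]
        omega
    · have hj : ¬ (p j).2 < 0 := by omega
      have e1 : ε i = false := by
        cases h : ε i
        · rfl
        · exact absurd ((hεt i).mp h) hi
      have e2 : ε j = false := by
        cases h : ε j
        · rfl
        · exact absurd ((hεt j).mp h) hj
      rw [e1, e2]
      simp only [Bool.false_eq_true, if_false, one_mul]
      have : σ i < σ j := by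
        by_cases he : (p i).2 = (p j).2
        · have := hM i j hij (Prod.ext hfst he)
          rwa [if_neg hi] at this
        · apply key1
          rw [hσ, hσ, Prod.Lex.toLex_lt_toLex]
          left
          rw [io_fst, io_fst, abs_of_nonneg (not_lt.mp hi), abs_of_nonneg (not_lt.mp hj)]
          omega
      rw [Fin.lt_def] at this
      omega
  · intro i hi
    have h1 := hs i
    have h2 := (mem_Om.mp (hmem i)).2.2.2.2 (by omega)
    cases h : ε i
    · rfl
    · have := (hεt i).mp h
      omega
  · intro i
    have h1 := hs i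
    have h2 := (mem_Om.mp (hmem i)).2.1
    omega
  · funext i
    unfold pt
    have h1 := hs i
    have h2 := hs (σ i)
    rw [h1, h2, hσ, io_fst]
    apply Prod.ext
    · rfl
    · simp only
      by_cases hi : (p i).2 < 0
      · rw [(hεt i).mpr hi, abs_of_neg hi]
        simp
      · have e1 : ε i = false := by
          cases h : ε i
          · rfl
          · exact absurd ((hεt i).mp h) hi
        rw [e1, abs_of_nonneg (not_lt.mp hi)]
        simp

theorem good_inj {n m : ℕ} {σ σ' : Equiv.Perm (Fin n)} {ε ε' : Fin n → Bool} {s s' : Fin n → ℕ}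
    (h : Good m σ ε s) (h' : Good m σ' ε' s') (hc : cnt (pt σ ε s) = cnt (pt σ' ε' s')) :
    σ = σ' ∧ ε = ε' ∧ s = s' := by
  classical
  have hp : pt σ ε s = pt σ' ε' s' := by
    have : (fun i => toLex (pt σ ε s i)) = fun i => toLex (pt σ' ε' s' i) := by
      apply eq_of_counts h.lex h'.lex
      intro x
      exact congrFun hc (ofLex x)
    funext i
    exact toLex.injective (congrFun this i)
  refine ⟨?_, ?_, ?_⟩
  · have h2 : ∀ i, pt σ ε s (σ' i) = io (pt σ ε s i) := fun i => by
      rw [hp]; exact h'.io i
    have h3 := uniq h.lex h.mem h.io h2 h.mprop (hp ▸ h'.mprop)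
    apply Equiv.ext
    intro i
    have := h3 i
    rw [← this, h'.inv]
    rw [this]
  · funext i
    have e1 := h.neg i
    have e2 := h'.neg i
    rw [hp] at e1
    cases h5 : ε i <;> cases h6 : ε' i <;> simp_all
  · funext i
    have := congrArg Prod.fst (congrFun hp i)
    unfold pt at this
    simp only at this
    exact_mod_cast this

end Pool.Agent.X0.InvB
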