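import Mathlib

set_option autoImplicit false

namespace Pool.Agent.X0.InvB

open PowerSeries Finset

/-- sequences `s` with values in `[0, m]`, `s_0 ≥ d 0`, `s_{j} ≥ s_{j-1} + d j` -/
def Sset (n : ℕ) (d : ℕ → ℕ) (m : ℕ) : Finset (Fin n → ℕ) :=
  (Fintype.piFinset fun _ => range (m + 1)).filter
    (fun s => (∀ i : Fin n, i.val = 0 → d 0 ≤ s i) ∧
      ∀ i j : Fin n, j.val = i.val + 1 → s i + d j.val ≤ s j)

theorem mem_Sset {n : ℕ} {d : ℕ → ℕ} {m : ℕ} {s : Fin n → ℕ} : s ∈ Sset n d m ↔
    (∀ i, s i ≤ m) ∧ (∀ i : Fin n, i.val = 0 → d 0 ≤ s i) ∧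
      ∀ i j : Fin n, j.val = i.val + 1 → s i + d j.val ≤ s j := by
  unfold Sset
  rw [mem_filter, Fintype.mem_piFinset]
  simp only [mem_range, Nat.lt_succ_iff]

theorem Sset_mono {n : ℕ} {d : ℕ → ℕ} {m : ℕ} {s : Fin n → ℕ} (h : s ∈ Sset n d m) :
    Monotone s := by
  rw [mem_Sset] at h
  rcases n with _ | n
  · intro i; exact i.elim0
  · rw [Fin.monotone_iff_le_succ]
    intro i
    have := h.2.2 i.castSucc i.succ (by simp)
    omega

theorem last_ge {n : ℕ} {d : ℕ → ℕ} {m : ℕ} {s : Fin (n + 1) → ℕ} (h : s ∈ Sset (n + 1) d m) :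
    d n ≤ s (Fin.last n) ∧ ∀ i : Fin n, s i.castSucc + d n ≤ s (Fin.last n) := by
  have hm := Sset_mono h
  rw [mem_Sset] at h
  rcases n with _ | n
  · exact ⟨h.2.1 _ rfl, fun i => i.elim0⟩
  · have h1 := h.2.2 (Fin.last n).castSucc (Fin.last (n + 1)) (by simp)
    simp only [Fin.val_last] at h1
    refine ⟨by omega, fun i => ?_⟩
    have h2 := hm (Fin.castSucc_le_castSucc_iff.mpr (Fin.le_last i))
    omega

theorem card_fiber (n : ℕ) (d : ℕ → ℕ) (m k : ℕ) (hk : k ≤ m) :
    ((Sset (n + 1) d m).filter (fun s => s (Fin.last n) = k)).card =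
      if d n ≤ k then (Sset n d (k - d n)).card else 0 := by
  split_ifs with hd
  · apply Finset.card_bij' (fun s _ => Fin.init s) (fun s _ => Fin.snoc (α := fun _ => ℕ) s k)
    · intro s hs
      rw [mem_filter] at hs
      obtain ⟨hs, hl⟩ := hs
      have h1 := last_ge hs
      rw [mem_Sset] at hs ⊢
      refine ⟨fun i => ?_, fun i hi => hs.2.1 _ hi, fun i j hij => ?_⟩
      · have := h1.2 i
        simp only [Fin.init]
        omega
      · exact hs.2.2 i.castSucc j.castSucc (by simpa using hij)
    · intro s hs
      rw [mem_filter, mem_Sset]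
      rw [mem_Sset] at hs
      refine ⟨⟨fun i => ?_, fun i hi => ?_, fun i j hij => ?_⟩, ?_⟩
      · refine Fin.lastCases ?_ (fun i => ?_) i
        · simpa using hk
        · have := hs.1 i
          simp only [Fin.snoc_castSucc]
          omega
      · revert hi
        refine Fin.lastCases ?_ (fun i => ?_) i
        · intro hi
          simp only [Fin.val_last] at hi
          subst hi
          rw [Fin.snoc_last]
          exact hd
        · intro hi
          have := hs.2.1 i (by simpa using hi)
          simpa using this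
      · revert hij
        refine Fin.lastCases ?_ (fun j => ?_) j
        · refine Fin.lastCases ?_ (fun i => ?_) i
          · intro h
            simp at h
          · intro h
            simp only [Fin.val_last, Fin.snoc_castSucc, Fin.snoc_last]
            have := hs.1 i
            omega
        · refine Fin.lastCases ?_ (fun i => ?_) i
          · intro h
            simp only [Fin.val_last, Fin.val_castSucc] at h
            have := j.isLt
            omega
          · intro h
            simp only [Fin.snoc_castSucc]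
            exact hs.2.2 i j (by simpa using h)
      · simp
    · intro s hs
      rw [mem_filter] at hs
      rw [← hs.2]
      exact Fin.snoc_init_self s
    · intro s hs
      simp
  · rw [Finset.card_eq_zero, Finset.filter_eq_empty_iff]
    intro s hs hl
    have := (last_ge hs).1
    omega

theorem card_succ (n : ℕ) (d : ℕ → ℕ) (m : ℕ) :
    (Sset (n + 1) d m).card = ∑ k ∈ range (m + 1), if d n ≤ k then (Sset n d (k - d n)).card else 0 := by
  rw [Finset.card_eq_sum_card_fiberwise (f := fun s => s (Fin.last n)) (t := range (m + 1))]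
  · apply sum_congr rfl
    intro k hk
    rw [mem_range] at hk
    exact card_fiber n d m k (by omega)
  · intro s hs
    have := (mem_Sset.mp hs).1 (Fin.last n)
    simp only [coe_range, Set.mem_Iio]
    omega

theorem gen (n : ℕ) (d : ℕ → ℕ) :
    (1 - X) ^ (n + 1) * (PowerSeries.mk (fun m => ((Sset n d m).card : ℚ)) : ℚ⟦X⟧) =
      X ^ (∑ i ∈ range n, d i) := by
  induction n with
  | zero =>
    have : (PowerSeries.mk (fun m => ((Sset 0 d m).card : ℚ)) : ℚ⟦X⟧) = PowerSeries.mk 1 := by
      ext m
      simp only [coeff_mk, Pi.one_apply]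
      have : (Sset 0 d m).card = 1 := by
        rw [Finset.card_eq_one]
        refine ⟨Fin.elim0, ?_⟩
        ext s
        rw [mem_Sset, mem_singleton]
        constructor
        · intro _
          exact Subsingleton.elim _ _
        · intro _
          exact ⟨fun i => i.elim0, fun i => i.elim0, fun i => i.elim0⟩
      rw [this]
      norm_num
    rw [this]
    simp only [zero_add, pow_one, range_zero, sum_empty, pow_zero]
    rw [mul_comm]
    exact PowerSeries.mk_one_mul_one_sub_eq_one ℚ
  | succ n ih =>
    have step : (1 - X) * (PowerSeries.mk (fun m => ((Sset (n + 1) d m).card : ℚ)) : ℚ⟦X⟧) =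
        X ^ (d n) * (PowerSeries.mk (fun m => ((Sset n d m).card : ℚ)) : ℚ⟦X⟧) := by
      ext m
      rw [coeff_X_pow_mul', sub_mul, one_mul, map_sub]
      rcases m with _ | m
      · rw [coeff_mk, coeff_mk, card_succ]
        simp
      · rw [coeff_succ_X_mul, coeff_mk, coeff_mk, coeff_mk, card_succ, card_succ,
          Finset.sum_range_succ (n := m + 1)]
        push_cast
        ring_nf
    rw [sum_range_succ, pow_add X, ← ih]
    linear_combination (1 - X) ^ (n + 1) * step

end Pool.Agent.X0.InvB
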