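import Pool.Agent.X0.InvB.Rec

set_option autoImplicit false

namespace Pool.Agent.X0.InvB

open PowerSeries

/-- `θ = X d/dX` on power series -/
noncomputable def tS (F : ℚ⟦X⟧) : ℚ⟦X⟧ := X * d⁄dX ℚ F

theorem coeff_tS (F : ℚ⟦X⟧) (m : ℕ) : coeff m (tS F) = m * coeff m F := by
  unfold tS
  rcases m with _ | m
  · simp
  · rw [coeff_succ_X_mul, coeff_derivative]
    push_cast
    ring

theorem tS_coe (f : Polynomial ℚ) : tS (f : ℚ⟦X⟧) = ((th f : Polynomial ℚ) : ℚ⟦X⟧) := by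
  unfold tS th
  rw [derivative_coe]
  simp

theorem tS_mul (F G : ℚ⟦X⟧) : tS (F * G) = tS F * G + F * tS G := by
  unfold tS
  rw [Derivation.leibniz]
  simp only [smul_eq_mul]
  ring

theorem tS_pow (k : ℕ) : (1 - X : ℚ⟦X⟧) * tS ((1 - X) ^ k) = - C (k : ℚ) * X * (1 - X) ^ k := by
  induction k with
  | zero => simp [tS]
  | succ k ih =>
    rw [pow_succ, tS_mul, mul_add, ← mul_assoc, ih]
    have : tS (1 - X : ℚ⟦X⟧) = - X := by
      unfold tS
      simp
    rw [this]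
    have hk : (C ((k + 1 : ℕ) : ℚ) : ℚ⟦X⟧) = C (k : ℚ) + 1 := by
      push_cast
      rw [map_add, map_one]
    rw [hk]
    ring

theorem two_eq : (C (2 : ℚ) : ℚ⟦X⟧) = 2 := map_ofNat C 2

theorem tS_step (k : ℕ) (F : ℚ⟦X⟧) (p : Polynomial ℚ) (h : (1 - X) ^ k * F = (p : ℚ⟦X⟧)) :
    (1 - X) ^ (k + 1) * tS F = (((1 - Polynomial.X) * th p + Polynomial.C (k : ℚ) * Polynomial.X * p :
      Polynomial ℚ) : ℚ⟦X⟧) := by
  have h1 := congrArg tS h
  rw [tS_mul, tS_coe] at h1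
  have h2 := tS_pow k
  have h3 : (((1 - Polynomial.X) * th p + Polynomial.C (k : ℚ) * Polynomial.X * p :
      Polynomial ℚ) : ℚ⟦X⟧) = (1 - X) * ((th p : Polynomial ℚ) : ℚ⟦X⟧) + C (k : ℚ) * X * (p : ℚ⟦X⟧) := by
    rw [Polynomial.coe_add, Polynomial.coe_mul, Polynomial.coe_mul, Polynomial.coe_mul,
      Polynomial.coe_sub, Polynomial.coe_one, Polynomial.coe_X, Polynomial.coe_C]
  rw [h3, ← h1, ← h]
  rw [pow_succ]
  linear_combination (-F) * h2

theorem series_eq (c : ℕ → ℕ → ℚ) (h0 : ∀ m, c 0 m = 1) (h1 : ∀ m, c 1 m = 2 * m + 1)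
    (h2 : ∀ n m : ℕ, ((n : ℚ) + 2) * c (n + 2) m = (2 * m + 1) * c (n + 1) m
      + (2 * (m : ℚ) ^ 2 + 2 * m + 1 + n) * c n m) (n : ℕ) :
    (1 - X) ^ (n + 1) * (PowerSeries.mk (c n) : ℚ⟦X⟧) = ((P n : Polynomial ℚ) : ℚ⟦X⟧) := by
  have key : ∀ n, (1 - X) ^ (n + 1) * (PowerSeries.mk (c n) : ℚ⟦X⟧) = ((P n : Polynomial ℚ) : ℚ⟦X⟧) ∧
      (1 - X) ^ (n + 2) * (PowerSeries.mk (c (n + 1)) : ℚ⟦X⟧) = ((P (n + 1) : Polynomial ℚ) : ℚ⟦X⟧) := by
    intro n
    induction n with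
    | zero =>
      have z0 : (1 - X) * (PowerSeries.mk (c 0) : ℚ⟦X⟧) = 1 := by
        have : (PowerSeries.mk (c 0) : ℚ⟦X⟧) = PowerSeries.mk 1 := by
          ext m
          simp [h0]
        rw [this, mul_comm]
        exact PowerSeries.mk_one_mul_one_sub_eq_one ℚ
      have hP0 : P 0 = 1 := by
        simp [P, PN, gam, e]
      have hP1 : P 1 = 1 + Polynomial.X := by
        simp [P, PN, gam, e]
      refine ⟨?_, ?_⟩
      · rw [zero_add, pow_one, z0, hP0]
        simp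
      · have z1 : (PowerSeries.mk (c 1) : ℚ⟦X⟧) = 2 * tS (PowerSeries.mk (c 0)) + PowerSeries.mk (c 0) := by
          ext m
          rw [map_add, coeff_mk, coeff_mk, h1, h0]
          rw [← two_eq, coeff_C_mul, coeff_tS, coeff_mk, h0]
          ring
        have z2 := tS_step 1 (PowerSeries.mk (c 0)) 1 (by rw [pow_one, z0]; simp)
        have z3 : th (1 : Polynomial ℚ) = 0 := by simp [th]
        rw [z3] at z2
        simp only [mul_zero, zero_add, Nat.cast_one, mul_one, map_one, one_mul] at z2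
        have z4 : ((Polynomial.X : Polynomial ℚ) : ℚ⟦X⟧) = X := by simp
        rw [z4] at z2
        rw [zero_add, hP1, z1]
        have z5 : ((1 + Polynomial.X : Polynomial ℚ) : ℚ⟦X⟧) = 1 + X := by simp
        rw [z5]
        have z6 : (1 - X : ℚ⟦X⟧) ^ (1 + 1) = (1 - X) ^ 2 := by norm_num
        rw [z6] at z2
        linear_combination 2 * z2 + (1 - X) * z0
    | succ n ih =>
      obtain ⟨i0, i1⟩ := ih
      refine ⟨i1, ?_⟩
      have e1 := tS_step (n + 2) _ _ i1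
      have e2 := tS_step (n + 1) _ _ i0
      have e3 := tS_step (n + 2) _ _ e2
      have hrec : C ((n : ℚ) + 2) * (PowerSeries.mk (c (n + 2)) : ℚ⟦X⟧) =
          2 * tS (PowerSeries.mk (c (n + 1))) + PowerSeries.mk (c (n + 1))
          + 2 * tS (tS (PowerSeries.mk (c n))) + 2 * tS (PowerSeries.mk (c n))
          + C ((n : ℚ) + 1) * PowerSeries.mk (c n) := by
        ext m
        rw [← two_eq]
        simp only [LinearMap.map_add, coeff_C_mul, coeff_tS, coeff_mk]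
        rw [h2]
        ring
      have hP := congrArg (fun p : Polynomial ℚ => (p : ℚ⟦X⟧)) (P_rec n)
      have hC : (C ((n : ℚ) + 2) : ℚ⟦X⟧) ≠ 0 := by
        intro h
        have := congrArg (coeff 0) h
        rw [coeff_zero_C] at this
        simp at this
        have h3 : (0 : ℚ) < n + 2 := by positivity
        exact h3.ne' this
      apply mul_left_cancel₀ hC
      have hP' : C ((n : ℚ) + 2) * ((P (n + 2) : Polynomial ℚ) : ℚ⟦X⟧) =
        ((opA (n + 2) (P (n + 1)) + opB (n + 2) (P n) : Polynomial ℚ) : ℚ⟦X⟧) := by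
        rw [← P_rec n, Polynomial.coe_mul, Polynomial.coe_C]
      rw [show n + 1 + 1 = n + 2 by ring, hP']
      have c1 : C ((n : ℚ) + 2) * ((1 - X) ^ (n + 1 + 2) * (PowerSeries.mk (c (n + 2)) : ℚ⟦X⟧)) =
        (1 - X) ^ (n + 3) * (C ((n : ℚ) + 2) * (PowerSeries.mk (c (n + 2)) : ℚ⟦X⟧)) := by ring
      rw [c1, hrec]
      have w1 : opJ ((n : ℚ) + 2) (P n) = (1 - Polynomial.X) * th (P n)
          + Polynomial.C ((n + 1 : ℕ) : ℚ) * Polynomial.X * P n := by
        unfold opJ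
        congr 4
        push_cast
        ring
      rw [← w1] at e2 e3
      have w2 : ((opA ((n : ℚ) + 2) (P (n + 1)) + opB ((n : ℚ) + 2) (P n) : Polynomial ℚ) : ℚ⟦X⟧) =
        (1 - X) * ((P (n + 1) : Polynomial ℚ) : ℚ⟦X⟧)
        + 2 * (((1 - Polynomial.X) * th (P (n + 1)) + Polynomial.C ((n + 2 : ℕ) : ℚ) * Polynomial.X * P (n + 1) : Polynomial ℚ) : ℚ⟦X⟧)
        + 2 * (((1 - Polynomial.X) * th (opJ ((n : ℚ) + 2) (P n)) + Polynomial.C ((n + 2 : ℕ) : ℚ) * Polynomial.X * opJ ((n : ℚ) + 2) (P n) : Polynomial ℚ) : ℚ⟦X⟧)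
        + 2 * (1 - X) * ((opJ ((n : ℚ) + 2) (P n) : Polynomial ℚ) : ℚ⟦X⟧)
        + C ((n : ℚ) + 1) * (1 - X) ^ 2 * ((P n : Polynomial ℚ) : ℚ⟦X⟧) := by
        unfold opA opB
        have q1 : ((n : ℚ) + 2 - 1) = n + 1 := by ring
        rw [q1]
        have q2 : (((n + 2 : ℕ) : ℚ)) = n + 2 := by push_cast; ring
        rw [q2]
        simp only [Polynomial.coe_add, Polynomial.coe_mul, Polynomial.coe_sub, Polynomial.coe_one,
          Polynomial.coe_X, Polynomial.coe_C, Polynomial.coe_pow, map_mul, map_add, map_one]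
        have q3 : (((2 : Polynomial ℚ)) : ℚ⟦X⟧) = 2 := by
          have : (2 : Polynomial ℚ) = Polynomial.C 2 := (map_ofNat Polynomial.C 2).symm
          rw [this, Polynomial.coe_C, two_eq]
        rw [q3, two_eq]
        ring
      rw [w2, ← e1, ← e3, ← e2, ← i1, ← i0]
      ring
  exact (key n).1

end Pool.Agent.X0.InvB
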