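import Pool.Agent.X0.InvB.Bij2
import Pool.Agent.X0.InvB.Cnt
import Pool.Agent.X0.InvB.Ser

set_option autoImplicit false

namespace Pool.Agent.X0.InvB

open Finset

/-- descent indicator -/
def dd {n : ℕ} (σ : Equiv.Perm (Fin n)) (ε : Fin n → Bool) (j : ℕ) : ℕ :=
  if h : j < n then
    (if j = 0 then (if ε ⟨j, h⟩ = true then 1 else 0)
      else (if val σ ε ⟨j, h⟩ < val σ ε ⟨j - 1, by omega⟩ then 1 else 0))
  else 0

def IsInv {n : ℕ} (w : Equiv.Perm (Fin n) × (Fin n → Bool)) : Prop :=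
  ∀ i : Fin n, w.1 (w.1 i) = i ∧ w.2 (w.1 i) = w.2 i

theorem val_inj {n : ℕ} {σ : Equiv.Perm (Fin n)} {ε : Fin n → Bool} {i j : Fin n}
    (h : val σ ε i = val σ ε j) : i = j := by
  unfold val at h
  apply σ.injective
  apply Fin.ext
  cases h1 : ε i <;> cases h2 : ε j <;> simp [h1, h2] at h <;> omega

theorem good_iff {n m : ℕ} {σ : Equiv.Perm (Fin n)} {ε : Fin n → Bool} (hw : IsInv (σ, ε))
    (s : Fin n → ℕ) : s ∈ Sset n (dd σ ε) m ↔ Good m σ ε s := by
  constructor
  · intro hs
    have hmono := Sset_mono hs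
    rw [mem_Sset] at hs
    obtain ⟨hb, h0, h1⟩ := hs
    -- consecutive
    have hcons : ∀ (a : ℕ) (ha : a + 1 < n), s ⟨a, by omega⟩ = s ⟨a + 1, ha⟩ →
        val σ ε ⟨a, by omega⟩ < val σ ε ⟨a + 1, ha⟩ := by
      intro a ha he
      have h2 := h1 ⟨a, by omega⟩ ⟨a + 1, ha⟩ rfl
      have h3 : dd σ ε (a + 1) = 0 := by
        simp only at h2
        omega
      unfold dd at h3
      rw [dif_pos ha, if_neg (by omega)] at h3
      have h4 : ¬ (val σ ε ⟨a + 1, ha⟩ < val σ ε ⟨a + 1 - 1, by omega⟩) := by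
        intro h
        rw [if_pos h] at h3
        exact absurd h3 (by norm_num)
      simp only [Nat.add_sub_cancel] at h4
      have h5 : val σ ε ⟨a, by omega⟩ ≠ val σ ε ⟨a + 1, ha⟩ := by
        intro h
        have := val_inj h
        rw [Fin.mk.injEq] at this
        omega
      exact lt_of_le_of_ne (not_lt.mp h4) h5
    have hchain : ∀ (t a : ℕ) (ha : a + t + 1 < n), s ⟨a, by omega⟩ = s ⟨a + t + 1, ha⟩ →
        val σ ε ⟨a, by omega⟩ < val σ ε ⟨a + t + 1, ha⟩ := by
      intro t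
      induction t with
      | zero => intro a ha he; exact hcons a ha he
      | succ t ih =>
        intro a ha he
        have m1 : s ⟨a, by omega⟩ ≤ s ⟨a + t + 1, by omega⟩ := hmono (by rw [Fin.le_def]; simp only; omega)
        have m2 : s ⟨a + t + 1, by omega⟩ ≤ s ⟨a + t + 1 + 1, by omega⟩ :=
          hmono (by rw [Fin.le_def]; simp only; omega)
        have he' : s ⟨a, by omega⟩ = s ⟨a + t + 1 + 1, by omega⟩ := he
        have e1 : s ⟨a, by omega⟩ = s ⟨a + t + 1, by omega⟩ := by omega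
        have e2 : s ⟨a + t + 1, by omega⟩ = s ⟨a + t + 1 + 1, by omega⟩ := by omega
        exact lt_trans (ih a (by omega) e1) (hcons (a + t + 1) (by omega) e2)
    have hdesc : ∀ i j : Fin n, i < j → s i = s j → val σ ε i < val σ ε j := by
      intro i j hij he
      obtain ⟨i, hi⟩ := i
      obtain ⟨j, hj⟩ := j
      rw [Fin.lt_def] at hij
      simp only at hij
      obtain ⟨t, rfl⟩ : ∃ t, j = i + t + 1 := ⟨j - i - 1, by omega⟩
      exact hchain t i hj he
    refine ⟨fun i => (hw i).1, fun i => (hw i).2, hmono, hdesc, ?_, hb⟩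
    intro i hi
    have hn : 0 < n := lt_of_le_of_lt (Nat.zero_le _) i.isLt
    have hz : s ⟨0, hn⟩ = 0 := by
      have : s ⟨0, hn⟩ ≤ s i := hmono (by rw [Fin.le_def]; simp)
      omega
    have hd0 : ε ⟨0, hn⟩ = false := by
      have h2 := h0 ⟨0, hn⟩ rfl
      rw [hz] at h2
      have h3 : dd σ ε 0 = 0 := by omega
      unfold dd at h3
      rw [dif_pos hn, if_pos rfl] at h3
      cases h4 : ε ⟨0, hn⟩
      · rfl
      · rw [h4] at h3; simp at h3
    by_cases hi0 : i = ⟨0, hn⟩
    · rw [hi0]; exact hd0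
    · have hlt : (⟨0, hn⟩ : Fin n) < i := by
        rw [Fin.lt_def]
        simp only
        rcases Nat.eq_zero_or_pos i.val with h | h
        · exact absurd (Fin.ext h) hi0
        · exact h
      have := hdesc _ _ hlt (by rw [hz, hi])
      unfold val at this
      rw [hd0] at this
      cases h4 : ε i
      · rfl
      · rw [h4] at this
        simp at this
        omega
  · intro h
    rw [mem_Sset]
    refine ⟨h.bd, ?_, ?_⟩
    · intro i hi
      have hn : 0 < n := lt_of_le_of_lt (Nat.zero_le _) i.isLt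
      have hi' : i = ⟨0, hn⟩ := Fin.ext hi
      unfold dd
      rw [dif_pos hn, if_pos rfl]
      split_ifs with he
      · by_contra hcon
        have := h.zero i (by omega)
        rw [hi', he] at this
        exact absurd this (by simp)
      · omega
    · intro i j hij
      have hmn : s i ≤ s j := h.mono (by rw [Fin.le_def]; omega)
      unfold dd
      rw [dif_pos j.isLt, if_neg (by omega)]
      split_ifs with he
      · have hi : (⟨j.val - 1, by omega⟩ : Fin n) = i := Fin.ext (by simp only; omega)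
        rw [hi] at he
        rcases Nat.lt_or_ge (s i) (s j) with h1 | h1
        · omega
        · exfalso
          have := h.desc i j (by rw [Fin.lt_def]; omega) (by omega)
          have he' : val σ ε j < val σ ε i := he
          omega
      · omega

open Classical in
theorem card_pairs (n m : ℕ) :
    ∑ w ∈ (univ : Finset (Equiv.Perm (Fin n) × (Fin n → Bool))).filter (fun w => IsInv w),
      (Sset n (dd w.1 w.2) m).card = (Z (Om m) io n).card := by
  rw [← Finset.card_sigma]
  apply Finset.card_bij (fun x _ => cnt (pt x.1.1 x.1.2 x.2))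
  · rintro ⟨⟨σ, ε⟩, s⟩ hx
    rw [mem_sigma, mem_filter] at hx
    have hg := (good_iff hx.1.2 s).mp hx.2
    exact cnt_mem hg.mem hg.io
  · rintro ⟨⟨σ, ε⟩, s⟩ hx ⟨⟨σ', ε'⟩, s'⟩ hx' hc
    rw [mem_sigma, mem_filter] at hx hx'
    have hg := (good_iff hx.1.2 s).mp hx.2
    have hg' := (good_iff hx'.1.2 s').mp hx'.2
    obtain ⟨h1, h2, h3⟩ := good_inj hg hg' hc
    subst h1
    subst h2
    subst h3
    rfl
  · intro c hc
    obtain ⟨p, hmono, hmem, hcnt⟩ := exists_tuple hc
    have hc' := hc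
    rw [mem_Z] at hc'
    obtain ⟨σ, ε, s, hg, hpt⟩ := exists_good hmono hmem (fun q hq => by
      rw [hcnt]; exact hc'.2 q hq)
    have hI : IsInv (σ, ε) := fun i => ⟨hg.inv i, hg.eps i⟩
    refine ⟨⟨(σ, ε), s⟩, ?_, ?_⟩
    · rw [mem_sigma, mem_filter]
      exact ⟨⟨mem_univ _, hI⟩, (good_iff hI s).mpr hg⟩
    · simp only
      rw [hpt, hcnt]

theorem card_Om (m : ℕ) : (Om m).card = 2 * m ^ 2 + 2 * m + 1 := by
  have h1 := Finset.card_filter_add_card_filter_not (s := (Icc (0 : ℤ) m) ×ˢ (Icc (-(m : ℤ)) m))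
    (fun q => q.1 = 0 → 0 ≤ q.2)
  have h2 : (((Icc (0 : ℤ) m) ×ˢ (Icc (-(m : ℤ)) m)).filter (fun q => ¬ (q.1 = 0 → 0 ≤ q.2))) =
      {(0 : ℤ)} ×ˢ (Ico (-(m : ℤ)) 0) := by
    ext q
    rw [mem_filter, mem_product, mem_product, mem_Icc, mem_Icc, mem_singleton, mem_Ico]
    constructor
    · rintro ⟨⟨h1, h2⟩, h3⟩
      rw [Classical.not_imp] at h3
      exact ⟨h3.1, h2.1, not_le.mp h3.2⟩
    · rintro ⟨h1, h2, h3⟩
      refine ⟨⟨⟨by omega, by omega⟩, h2, by omega⟩, ?_⟩
      rw [Classical.not_imp]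
      exact ⟨h1, not_le.mpr h3⟩
  rw [h2, Finset.card_product, Finset.card_product, Finset.card_singleton, Int.card_Icc, Int.card_Icc,
    Int.card_Ico] at h1
  have e1 : ((m : ℤ) + 1 - 0).toNat = m + 1 := by omega
  have e2 : ((m : ℤ) + 1 - -(m : ℤ)).toNat = 2 * m + 1 := by omega
  have e3 : ((0 : ℤ) - -(m : ℤ)).toNat = m := by omega
  rw [e1, e2, e3] at h1
  unfold Om
  nlinarith

theorem card_fix (m : ℕ) : ((Om m).filter (fun q => io q = q)).card = 2 * m + 1 := by
  have h1 : (Om m).filter (fun q => io q = q) = (Icc (-(m : ℤ)) m).image (fun b => (|b|, b)) := by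
    ext ⟨a, b⟩
    rw [mem_filter, mem_Om, mem_image]
    unfold io
    constructor
    · rintro ⟨⟨h1, h2, h3, h4, h5⟩, h6⟩
      simp only [Prod.mk.injEq] at h6
      refine ⟨b, ?_, ?_⟩
      · rw [mem_Icc]; exact ⟨h3, h4⟩
      · rw [h6.1]
    · rintro ⟨b', hb, hq⟩
      rw [mem_Icc] at hb
      rw [Prod.mk.injEq] at hq
      obtain ⟨hq1, hq2⟩ := hq
      subst hq2
      subst hq1
      rcases le_or_gt 0 b' with h | h
      · rw [abs_of_nonneg h]
        simp only [if_pos h]
        refine ⟨⟨h, hb.2, hb.1, hb.2, fun _ => h⟩, by trivial⟩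
      · rw [abs_of_neg h]
        simp only [if_neg (not_le.mpr h), neg_neg]
        refine ⟨⟨by omega, by omega, hb.1, hb.2, fun _ => by omega⟩, by trivial⟩
  rw [h1, Finset.card_image_of_injective, Int.card_Icc]
  · omega
  · intro a b h
    exact (Prod.mk.inj h).2

/-- the recurrence for the counting function -/
theorem main_series (n : ℕ) :
    (1 - PowerSeries.X) ^ (n + 1) * (PowerSeries.mk (fun m => ((Z (Om m) io n).card : ℚ)) : PowerSeries ℚ)
      = ((P n : Polynomial ℚ) : PowerSeries ℚ) := by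
  apply series_eq (fun n m => ((Z (Om m) io n).card : ℚ))
  · intro m
    rw [Z_zero]
    norm_num
  · intro m
    rw [Z_one (fun q hq => io_mem hq) (fun q hq => io_io hq), card_fix]
    push_cast
    ring
  · intro n m
    have h := rec_Z (Om := Om m) (io := io) (fun q hq => io_mem hq) (fun q hq => io_io hq) n
    rw [card_fix, card_Om] at h
    have h' : (((n + 2) * (Z (Om m) io (n + 2)).card : ℕ) : ℚ) =
      (((2 * m + 1) * (Z (Om m) io (n + 1)).card + (2 * m ^ 2 + 2 * m + 1 + n) * (Z (Om m) io n).card : ℕ) : ℚ) := by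
      rw [h]
    push_cast at h'
    linarith

end Pool.Agent.X0.InvB
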