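import Mathlib

set_option autoImplicit false

namespace Pool.Agent.X0.InvB

open Polynomial

/-- the gamma coefficients `G i j = γ_{2i+j, i}`, by the recurrence
`(2i+j) G(i,j) = (2i+1) G(i,j-1) + 4(j+1) G(i-1,j+1) + (2i²+4i+j-1) G(i,j-2)
 + (4j + 4(i-1)(2j-1)) G(i-1,j) + 8(j+1)(j+2) G(i-2,j+2)`; first argument is `n = 2i+j` -/
noncomputable def gam : ℕ → ℕ → ℚ
  | 0, 0 => 1
  | 0, _ + 1 => 0
  | 1, 0 => 1
  | 1, _ + 1 => 0
  | n + 2, 0 => (gam (n + 1) 0 + (n + 1) * gam n 0) / (n + 2)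
  | n + 2, 1 => (3 * gam (n + 1) 1 + 4 * (n + 1) * gam (n + 1) 0 + (4 + n + 1) * gam n 1
      + 4 * n * gam n 0) / (n + 2)
  | n + 2, i + 2 => ((2 * i + 5) * gam (n + 1) (i + 2)
      + 4 * ((n : ℚ) + 3 - 2 * (i + 2)) * gam (n + 1) (i + 1)
      + (2 * ((i : ℚ) + 2) ^ 2 + 2 * (i + 2) + n + 1) * gam n (i + 2)
      + (4 * (n : ℚ) + 4 * (i + 1) * (2 * (n + 2) - 3 - 4 * (i + 2))) * gam n (i + 1)
      + 8 * ((n : ℚ) + 4 - 2 * (i + 2)) * ((n : ℚ) + 3 - 2 * (i + 2)) * gam n i) / (n + 2)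

/-- `gam n i = 0` beyond `n / 2` -/
theorem gam_zero : ∀ n i : ℕ, n < 2 * i → gam n i = 0
  | 0, 0, h => by omega
  | 0, i + 1, _ => by simp [gam]
  | 1, 0, h => by omega
  | 1, i + 1, _ => by simp [gam]
  | n + 2, 0, h => by omega
  | n + 2, 1, h => by omega
  | n + 2, i + 2, h => by
    have h1 := gam_zero (n + 1) (i + 2) (by omega)
    have h2 := gam_zero n (i + 2) (by omega)
    have h3 := gam_zero n (i + 1) (by omega)
    have h4 : ((n : ℚ) + 3 - 2 * (i + 2)) * gam (n + 1) (i + 1) = 0 := by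
      rcases Nat.lt_or_ge (n + 1) (2 * (i + 1)) with h | h'
      · rw [gam_zero (n + 1) (i + 1) h, mul_zero]
      · have : n = 2 * i + 1 := by omega
        subst this
        push_cast
        ring
    have h5 : ((n : ℚ) + 4 - 2 * (i + 2)) * ((n : ℚ) + 3 - 2 * (i + 2)) * gam n i = 0 := by
      rcases Nat.lt_or_ge n (2 * i) with h | h'
      · rw [gam_zero n i h, mul_zero]
      · have : n = 2 * i ∨ n = 2 * i + 1 := by omega
        rcases this with rfl | rfl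
        · push_cast; ring
        · push_cast; ring
    rw [gam, h1, h2, h3]
    have : (2 * (i : ℚ) + 5) * 0 + 4 * ((n : ℚ) + 3 - 2 * (i + 2)) * gam (n + 1) (i + 1)
      + (2 * ((i : ℚ) + 2) ^ 2 + 2 * (i + 2) + n + 1) * 0
      + (4 * (n : ℚ) + 4 * (i + 1) * (2 * (n + 2) - 3 - 4 * (i + 2))) * 0
      + 8 * ((n : ℚ) + 4 - 2 * (i + 2)) * ((n : ℚ) + 3 - 2 * (i + 2)) * gam n i = 0 := by
      linear_combination 4 * h4 + 8 * h5
    rw [this, zero_div]

end Pool.Agent.X0.InvB
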