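import Pool.Agent.X0.InvB.Fin

set_option autoImplicit false

namespace Pool.Agent.X0.InvB

open Finset

/-- the descent number as in the statement -/
def des {n : ℕ} (w : Equiv.Perm (Fin n) × (Fin n → Bool)) : ℕ :=
  (Finset.univ.filter (fun j : Fin n => j.val = 0 ∧ w.2 j = true)).card +
    (Finset.univ.filter (fun p : Fin n × Fin n => p.2.val = p.1.val + 1 ∧
      (if w.2 p.2 then (-1 : ℤ) else 1) * (((w.1 p.2 : ℕ) : ℤ) + 1) <
      (if w.2 p.1 then (-1 : ℤ) else 1) * (((w.1 p.1 : ℕ) : ℤ) + 1))).card

theorem des_eq {n : ℕ} (w : Equiv.Perm (Fin n) × (Fin n → Bool)) :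
    ∑ i ∈ range n, dd w.1 w.2 i = des w := by
  obtain ⟨σ, ε⟩ := w
  unfold des
  simp only
  rw [← Fin.sum_univ_eq_sum_range]
  have h1 : ∀ j : Fin n, dd σ ε j.val = (if j.val = 0 ∧ ε j = true then 1 else 0) +
      (if (∃ i : Fin n, j.val = i.val + 1 ∧ val σ ε j < val σ ε i) then 1 else 0) := by
    intro j
    unfold dd
    rw [dif_pos j.isLt]
    by_cases h0 : j.val = 0
    · rw [if_pos h0]
      have : ¬ (∃ i : Fin n, j.val = i.val + 1 ∧ val σ ε j < val σ ε i) := by
        rintro ⟨i, hi, _⟩
        omega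
      have e : (j.val = 0 ∧ ε j = true) ↔ ε j = true := ⟨fun h => h.2, fun h => ⟨h0, h⟩⟩
      rw [if_neg this, add_zero]
      simp only [e, Fin.eta]
    · rw [if_neg h0]
      simp only [h0, false_and, if_false, zero_add]
      have : (val σ ε j < val σ ε ⟨j.val - 1, by omega⟩) ↔
          (∃ i : Fin n, j.val = i.val + 1 ∧ val σ ε j < val σ ε i) := by
        constructor
        · intro h
          exact ⟨⟨j.val - 1, by omega⟩, by simp only; omega, h⟩
        · rintro ⟨i, hi, h⟩
          have : (⟨j.val - 1, by omega⟩ : Fin n) = i := Fin.ext (by simp only; omega)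
          rw [this]
          exact h
      by_cases h : val σ ε j < val σ ε ⟨j.val - 1, by omega⟩
      · rw [if_pos (this.mp h)]
        exact if_pos h
      · rw [if_neg (fun h' => h (this.mpr h'))]
        exact if_neg h
  simp only [h1]
  rw [sum_add_distrib]
  congr 1
  · rw [Finset.card_filter]
  · rw [← Finset.card_filter]
    symm
    apply Finset.card_bij (fun p _ => p.2)
    · intro p hp
      rw [mem_filter] at hp ⊢
      exact ⟨mem_univ _, p.1, hp.2.1, hp.2.2⟩
    · intro p hp q hq h
      rw [mem_filter] at hp hq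
      have e1 := hp.2.1
      have e2 := hq.2.1
      apply Prod.ext
      · apply Fin.ext
        rw [h] at e1
        omega
      · exact h
    · intro j hj
      rw [mem_filter] at hj
      obtain ⟨_, i, hi, h⟩ := hj
      exact ⟨(i, j), by rw [mem_filter]; exact ⟨mem_univ _, hi, h⟩, rfl⟩

open Classical in
/-- the descent polynomial over `ℚ` equals the gamma expansion -/
theorem rat_eq (n : ℕ) :
    (∑ w ∈ (univ : Finset (Equiv.Perm (Fin n) × (Fin n → Bool))).filter (fun w => IsInv w),
      (Polynomial.X : Polynomial ℚ) ^ des w) = P n := by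
  apply Polynomial.coe_injective (R := ℚ)
  show ((_ : Polynomial ℚ) : PowerSeries ℚ) = _
  rw [← main_series n]
  have h1 : ((∑ w ∈ (univ : Finset (Equiv.Perm (Fin n) × (Fin n → Bool))).filter (fun w => IsInv w),
      (Polynomial.X : Polynomial ℚ) ^ des w : Polynomial ℚ) : PowerSeries ℚ) =
      ∑ w ∈ (univ : Finset (Equiv.Perm (Fin n) × (Fin n → Bool))).filter (fun w => IsInv w),
        (PowerSeries.X : PowerSeries ℚ) ^ des w := by
    rw [← Polynomial.coeToPowerSeries.ringHom_apply, map_sum]
    apply sum_congr rfl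
    intro w _
    rw [map_pow, Polynomial.coeToPowerSeries.ringHom_apply, Polynomial.coe_X]
  rw [h1]
  have h2 : (PowerSeries.mk (fun m => ((Z (Om m) io n).card : ℚ)) : PowerSeries ℚ) =
      ∑ w ∈ (univ : Finset (Equiv.Perm (Fin n) × (Fin n → Bool))).filter (fun w => IsInv w),
        PowerSeries.mk (fun m => ((Sset n (dd w.1 w.2) m).card : ℚ)) := by
    ext m
    rw [map_sum]
    simp only [PowerSeries.coeff_mk]
    rw [← card_pairs n m]
    push_cast
    rfl
  rw [h2, Finset.mul_sum]
  apply sum_congr rfl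
  intro w _
  rw [gen, des_eq]

theorem coeff_e (n j i : ℕ) : (e n j).coeff i = if j ≤ i then ((n - 2 * j).choose (i - j) : ℚ) else 0 := by
  unfold e
  rw [Polynomial.coeff_X_pow_mul']
  split_ifs with h
  · rw [add_comm, Polynomial.coeff_X_add_one_pow]
  · rfl

theorem gam_int (n : ℕ) (G : Polynomial ℤ) (hG : G.map (Int.castRingHom ℚ) = P n) (i : ℕ) :
    ∃ k : ℤ, gam n i = k := by
  induction i using Nat.strong_induction_on with
  | _ i ih =>
    choose! g hg using ih
    rcases Nat.lt_or_ge n (2 * i) with h | h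
    · exact ⟨0, by rw [gam_zero n i h]; simp⟩
    · have h1 := congrArg (fun p : Polynomial ℚ => p.coeff i) hG
      simp only [Polynomial.coeff_map] at h1
      have h2 : (P n).coeff i = ∑ j ∈ range (i + 1), gam n j * ((n - 2 * j).choose (i - j) : ℚ) := by
        unfold P PN
        rw [Polynomial.finset_sum_coeff]
        have : ∑ b ∈ range (n / 2 + 1), (Polynomial.C (gam n b) * e n b).coeff i =
            ∑ b ∈ range (n / 2 + 1), (if b ≤ i then gam n b * ((n - 2 * b).choose (i - b) : ℚ) else 0) := by
          apply sum_congr rfl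
          intro b _
          rw [Polynomial.coeff_C_mul, coeff_e]
          split_ifs <;> simp
        rw [this]
        symm
        rw [← Finset.sum_filter]
        apply sum_congr
        · ext b
          rw [mem_filter, mem_range, mem_range]
          omega
        · intro b _; rfl
      rw [h2, sum_range_succ] at h1
      have h3 : ∑ j ∈ range i, gam n j * ((n - 2 * j).choose (i - j) : ℚ) =
          ((∑ j ∈ range i, g j * ((n - 2 * j).choose (i - j) : ℤ) : ℤ) : ℚ) := by
        push_cast
        apply sum_congr rfl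
        intro j hj
        rw [hg j (mem_range.mp hj)]
      rw [h3] at h1
      simp only [Nat.sub_self, Nat.choose_zero_right, Nat.cast_one, mul_one] at h1
      refine ⟨G.coeff i - ∑ j ∈ range i, g j * ((n - 2 * j).choose (i - j) : ℤ), ?_⟩
      rw [Int.cast_sub]
      have h4 : (Int.castRingHom ℚ) (G.coeff i) = ((G.coeff i : ℤ) : ℚ) := rfl
      rw [h4] at h1
      linarith

open Classical in
theorem main (n : ℕ) : ∃ γ : ℕ → ℕ,
    (∑ w ∈ (Finset.univ : Finset (Equiv.Perm (Fin n) × (Fin n → Bool))).filter (fun w => IsInv w),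
      (Polynomial.X : Polynomial ℤ) ^ des w)
    = ∑ i ∈ Finset.range (n / 2 + 1),
        Polynomial.C (γ i : ℤ) * Polynomial.X ^ i * (1 + Polynomial.X) ^ (n - 2 * i) := by
  set G : Polynomial ℤ := ∑ w ∈ (Finset.univ : Finset (Equiv.Perm (Fin n) × (Fin n → Bool))).filter
    (fun w => IsInv w), (Polynomial.X : Polynomial ℤ) ^ des w with hGdef
  have hG : G.map (Int.castRingHom ℚ) = P n := by
    rw [← rat_eq n, hGdef, Polynomial.map_sum]
    apply sum_congr rfl
    intro w _
    rw [Polynomial.map_pow, Polynomial.map_X]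
  have hnat : ∀ i, ∃ k : ℕ, gam n i = k := by
    intro i
    obtain ⟨k, hk⟩ := gam_int n G hG i
    have h0 := gam_nonneg n i
    rw [hk] at h0
    have h1 : 0 ≤ k := by exact_mod_cast h0
    refine ⟨k.toNat, ?_⟩
    rw [hk]
    exact_mod_cast (Int.toNat_of_nonneg h1).symm
  choose γ hγ using hnat
  refine ⟨γ, ?_⟩
  apply Polynomial.map_injective (Int.castRingHom ℚ) (RingHom.injective_int _)
  rw [hG, Polynomial.map_sum]
  unfold P PN
  apply sum_congr rfl
  intro i _
  rw [hγ i, Polynomial.map_mul, Polynomial.map_mul, Polynomial.map_pow, Polynomial.map_pow,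
    Polynomial.map_add, Polynomial.map_one, Polynomial.map_X, Polynomial.map_C]
  unfold e
  simp
  ring

end Pool.Agent.X0.InvB
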