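import Pool.Agent.X0.InvB.Gam

set_option autoImplicit false

namespace Pool.Agent.X0.InvB

theorem gam_one' (n : ℕ) : (n + 2 : ℚ) * gam (n + 2) 1 = 3 * gam (n + 1) 1
    + 4 * (n + 1) * gam (n + 1) 0 + (4 + n + 1) * gam n 1 + 4 * n * gam n 0 := by
  rw [gam]
  have : (n + 2 : ℚ) ≠ 0 := by positivity
  field_simp

theorem gam_zero' (n : ℕ) : (n + 2 : ℚ) * gam (n + 2) 0 = gam (n + 1) 0 + (n + 1) * gam n 0 := by
  rw [gam]
  have : (n + 2 : ℚ) ≠ 0 := by positivity
  field_simp

theorem gam_two' (n i : ℕ) : (n + 2 : ℚ) * gam (n + 2) (i + 2) =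
    (2 * i + 5) * gam (n + 1) (i + 2)
      + 4 * ((n : ℚ) + 3 - 2 * (i + 2)) * gam (n + 1) (i + 1)
      + (2 * ((i : ℚ) + 2) ^ 2 + 2 * (i + 2) + n + 1) * gam n (i + 2)
      + (4 * (n : ℚ) + 4 * (i + 1) * (2 * (n + 2) - 3 - 4 * (i + 2))) * gam n (i + 1)
      + 8 * ((n : ℚ) + 4 - 2 * (i + 2)) * ((n : ℚ) + 3 - 2 * (i + 2)) * gam n i := by
  rw [gam]
  have : (n + 2 : ℚ) ≠ 0 := by positivity
  field_simp

theorem gam_pos_aux (n : ℕ) : ((∀ i, 0 ≤ gam n i) ∧
    ∀ k : ℕ, n = 2 * (k + 1) → ((k : ℚ) + 1) * gam n (k + 1) ≤ 4 * gam n k) ∧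
    ((∀ i, 0 ≤ gam (n + 1) i) ∧
    ∀ k : ℕ, n + 1 = 2 * (k + 1) → ((k : ℚ) + 1) * gam (n + 1) (k + 1) ≤ 4 * gam (n + 1) k) := by
  induction n with
  | zero =>
    refine ⟨⟨?_, fun k hk => by omega⟩, ?_, fun k hk => by omega⟩
    · intro i
      rcases i with _ | i <;> simp [gam]
    · intro i
      rcases i with _ | i <;> simp [gam]
  | succ n ih =>
    obtain ⟨⟨h0, hK⟩, h1, hK1⟩ := ih
    refine ⟨⟨h1, hK1⟩, ?_, ?_⟩
    · intro i
      have hn : (0 : ℚ) < n + 2 := by positivity
      have key : 0 ≤ (n + 2 : ℚ) * gam (n + 2) i → 0 ≤ gam (n + 2) i := fun h =>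
        nonneg_of_mul_nonneg_right h hn
      apply key
      match i with
      | 0 =>
        rw [gam_zero']
        have := h1 0
        have := h0 0
        positivity
      | 1 =>
        rw [gam_one']
        have := h1 0
        have := h0 0
        have := h1 1
        have := h0 1
        positivity
      | i + 2 =>
        rw [gam_two']
        rcases Nat.lt_trichotomy (n + 2) (2 * (i + 2)) with h | h | h
        · have := gam_two' n i
          rw [gam_zero (n + 2) (i + 2) h, mul_zero] at this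
          rw [← this]
        · -- n = 2 (i+1)
          have hn2 : n = 2 * (i + 1) := by omega
          have e1 : gam (n + 1) (i + 2) = 0 := gam_zero _ _ (by omega)
          have e2 : gam n (i + 2) = 0 := gam_zero _ _ (by omega)
          have e3 := hK i hn2
          have e4 := h1 (i + 1)
          have hc : (n : ℚ) = 2 * ((i : ℚ) + 1) := by
            rw [hn2]; push_cast; ring
          rw [e1, e2, hc]
          nlinarith
        · have hj : ∃ j : ℕ, n + 2 = 2 * (i + 2) + (j + 1) := ⟨n + 2 - 2 * (i + 2) - 1, by omega⟩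
          obtain ⟨j, hj⟩ := hj
          have hc : (n : ℚ) = 2 * ((i : ℚ) + 1) + (j + 1) := by
            have : (n : ℚ) + 2 = 2 * ((i : ℚ) + 2) + (j + 1) := by exact_mod_cast hj
            linarith
          have a1 : (n : ℚ) + 3 - 2 * (i + 2) = j + 2 := by rw [hc]; ring
          have a2 : (n : ℚ) + 4 - 2 * (i + 2) = j + 3 := by rw [hc]; ring
          have a3 : 4 * (n : ℚ) + 4 * (i + 1) * (2 * (n + 2) - 3 - 4 * (i + 2)) =
            4 * (j + 1) + 4 * (i + 1) * (2 * j + 1) := by rw [hc]; ring
          rw [a1, a2, a3]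
          have := h1 (i + 2)
          have := h1 (i + 1)
          have := h0 (i + 2)
          have := h0 (i + 1)
          have := h0 i
          positivity
    · intro k hk
      have hn : (0 : ℚ) < n + 2 := by positivity
      refine le_of_mul_le_mul_left ?_ hn
      have hnk : n = 2 * k := by omega
      match k with
      | 0 =>
        subst hnk
        have e := gam_one' 0
        have e0 := gam_zero' 0
        simp [gam] at e e0 ⊢
      | 1 =>
        subst hnk
        have e2 := gam_two' 2 0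
        have e1 := gam_one' 2
        have z1 : gam 3 2 = 0 := gam_zero _ _ (by omega)
        have z2 : gam 2 2 = 0 := gam_zero _ _ (by omega)
        have p1 := h1 1
        have p2 := h1 0
        have p3 := h0 1
        have p4 := h0 0
        norm_num [z1, z2] at e1 e2 p1 p2 p3 p4 ⊢
        linarith
      | k + 2 =>
        have e2 := gam_two' n (k + 1)
        have e1 := gam_two' n k
        have z1 : gam (n + 1) (k + 1 + 2) = 0 := gam_zero _ _ (by omega)
        have z2 : gam n (k + 1 + 2) = 0 := gam_zero _ _ (by omega)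
        have hc : (n : ℚ) = 2 * ((k : ℚ) + 2) := by rw [hnk]; push_cast; ring
        rw [z1, z2] at e2
        have p1 := h1 (k + 2)
        have p2 := h1 (k + 1)
        have p3 := h0 (k + 2)
        have p4 := h0 (k + 1)
        have p5 := h0 k
        have q1 : (k : ℚ) * gam (n + 1) (k + 2) ≥ 0 := by positivity
        have q2 : (k : ℚ) * gam n (k + 1) ≥ 0 := by positivity
        have q3 : (k : ℚ) * gam n (k + 2) ≥ 0 := by positivity
        have q4 : (k : ℚ) ^ 2 * gam n (k + 2) ≥ 0 := by positivity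
        have e2' : ((n : ℚ) + 2) * gam (n + 2) (k + 3) = 4 * gam (n + 1) (k + 2)
            - 4 * (k + 2) * gam n (k + 2) + 16 * gam n (k + 1) := by
          rw [show k + 3 = k + 1 + 2 by ring, e2, hc]
          push_cast
          ring_nf
        have e1' : ((n : ℚ) + 2) * gam (n + 2) (k + 2) = (2 * k + 5) * gam (n + 1) (k + 2)
            + 12 * gam (n + 1) (k + 1) + (2 * ((k : ℚ) + 2) ^ 2 + 4 * (k + 2) + 1) * gam n (k + 2)
            + (12 * k + 20) * gam n (k + 1) + 96 * gam n k := by
          rw [e1, hc]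
          ring
        have e3 : ((n : ℚ) + 2) * ((((k + 2 : ℕ) : ℚ) + 1) * gam (n + 1 + 1) (k + 2 + 1)) =
            (k + 3) * (((n : ℚ) + 2) * gam (n + 2) (k + 3)) := by
          push_cast; ring_nf
        have e4 : ((n : ℚ) + 2) * (4 * gam (n + 1 + 1) (k + 2)) =
            4 * (((n : ℚ) + 2) * gam (n + 2) (k + 2)) := by
          ring_nf
        rw [e3, e4, e1', e2']
        nlinarith

theorem gam_nonneg (n i : ℕ) : 0 ≤ gam n i := (gam_pos_aux n).1.1 i

end Pool.Agent.X0.InvB
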