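import Pool.Agent.X0.InvB.Alg

set_option autoImplicit false

namespace Pool.Agent.X0.InvB

open Polynomial Finset

/-- the gamma expansion truncated at `N` -/
noncomputable def PN (N n : ℕ) : ℚ[X] := ∑ i ∈ range N, C (gam n i) * e n i

noncomputable def P (n : ℕ) : ℚ[X] := PN (n / 2 + 1) n

theorem PN_eq (N n : ℕ) (h : n / 2 + 1 ≤ N) : PN N n = P n := by
  unfold P PN
  symm
  apply sum_subset
  · intro i hi
    simp only [mem_range] at hi ⊢
    omega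
  · intro i _ hi
    simp only [mem_range, not_lt] at hi
    rw [gam_zero n i (by omega)]
    simp

theorem opA_term (n i : ℕ) : C (gam n i) * opA (n + 1) (e n i) =
    C (gam n i) * (C (2 * i + 1 : ℚ) * e (n + 1) i + C (4 * ((n : ℚ) - 2 * i)) * e (n + 1) (i + 1)) := by
  rcases Nat.lt_or_ge n (2 * i) with h | h
  · rw [gam_zero n i h]; simp
  · rw [opA_e n i h]

theorem opB_term (n i : ℕ) : C (gam n i) * opB (n + 2) (e n i) =
    C (gam n i) * (C (2 * (i : ℚ) ^ 2 + 2 * i + n + 1) * e (n + 2) i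
    + C (4 * (n : ℚ) + 4 * i * (2 * (n + 2) - 3 - 4 * (i + 1))) * e (n + 2) (i + 1)
    + C (8 * ((n : ℚ) - 2 * i) * ((n : ℚ) - 1 - 2 * i)) * e (n + 2) (i + 2)) := by
  rcases Nat.lt_or_ge n (2 * i) with h | h
  · rw [gam_zero n i h]; simp
  · rw [opB_e n i h]

theorem P_rec (n : ℕ) : C ((n : ℚ) + 2) * P (n + 2) = opA (n + 2) (P (n + 1)) + opB (n + 2) (P n) := by
  set N := n + 3 with hN
  rw [← PN_eq (N + 2) (n + 2) (by omega), ← PN_eq (N + 2) (n + 1) (by omega),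
    ← PN_eq (N + 2) n (by omega)]
  unfold PN
  rw [opA_sum, opB_sum]
  have hA : ∀ i, C (gam (n + 1) i) * opA ((n : ℚ) + 2) (e (n + 1) i) =
      C ((2 * i + 1 : ℚ) * gam (n + 1) i) * e (n + 2) i
        + C (4 * ((n : ℚ) + 1 - 2 * i) * gam (n + 1) i) * e (n + 2) (i + 1) := by
    intro i
    have := opA_term (n + 1) i
    have e1 : (((n + 1 : ℕ) : ℚ) + 1) = n + 2 := by push_cast; ring
    rw [e1] at this
    rw [this]
    have e2 : ((n + 1 : ℕ) : ℚ) = n + 1 := by push_cast; ring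
    rw [e2]
    simp only [C_mul]
    ring
  have hB : ∀ i, C (gam n i) * opB ((n : ℚ) + 2) (e n i) =
      C ((2 * (i : ℚ) ^ 2 + 2 * i + n + 1) * gam n i) * e (n + 2) i
      + C ((4 * (n : ℚ) + 4 * i * (2 * (n + 2) - 3 - 4 * (i + 1))) * gam n i) * e (n + 2) (i + 1)
      + C (8 * ((n : ℚ) - 2 * i) * ((n : ℚ) - 1 - 2 * i) * gam n i) * e (n + 2) (i + 2) := by
    intro i
    rw [opB_term]
    simp only [C_mul]
    ring
  simp only [hA, hB, sum_add_distrib]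
  rw [mul_sum]
  have hL : ∀ i, C ((n : ℚ) + 2) * (C (gam (n + 2) i) * e (n + 2) i) =
      C (((n : ℚ) + 2) * gam (n + 2) i) * e (n + 2) i := by
    intro i
    simp only [C_mul]
    ring
  simp only [hL]
  -- reindex
  have s2 : ∀ f : ℕ → ℚ[X], ∑ i ∈ range (N + 2), f i = ∑ i ∈ range N, f (i + 2) + f 1 + f 0 := by
    intro f
    rw [sum_range_succ', sum_range_succ']
  have s1 : ∀ f : ℕ → ℚ[X], f (N + 1) = 0 →
      ∑ i ∈ range (N + 2), f i = ∑ i ∈ range N, f (i + 1) + f 0 := by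
    intro f hf
    rw [sum_range_succ, hf, add_zero, sum_range_succ']
  have s0 : ∀ f : ℕ → ℚ[X], f (N + 1) = 0 → f N = 0 →
      ∑ i ∈ range (N + 2), f i = ∑ i ∈ range N, f i := by
    intro f hf hf'
    rw [sum_range_succ, hf, add_zero, sum_range_succ, hf', add_zero]
  rw [s2 (fun i => C (((n : ℚ) + 2) * gam (n + 2) i) * e (n + 2) i),
    s2 (fun i => C ((2 * i + 1 : ℚ) * gam (n + 1) i) * e (n + 2) i),
    s2 (fun i => C ((2 * (i : ℚ) ^ 2 + 2 * i + n + 1) * gam n i) * e (n + 2) i),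
    s1 (fun i => C (4 * ((n : ℚ) + 1 - 2 * i) * gam (n + 1) i) * e (n + 2) (i + 1))
      (by rw [gam_zero (n + 1) (N + 1) (by omega)]; simp),
    s1 (fun i => C ((4 * (n : ℚ) + 4 * i * (2 * (n + 2) - 3 - 4 * (i + 1))) * gam n i) * e (n + 2) (i + 1))
      (by rw [gam_zero n (N + 1) (by omega)]; simp),
    s0 (fun i => C (8 * ((n : ℚ) - 2 * i) * ((n : ℚ) - 1 - 2 * i) * gam n i) * e (n + 2) (i + 2))
      (by rw [gam_zero n (N + 1) (by omega)]; simp) (by rw [gam_zero n N (by omega)]; simp)]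
  have key : ∑ i ∈ range N, C (((n : ℚ) + 2) * gam (n + 2) (i + 2)) * e (n + 2) (i + 2) =
      ∑ i ∈ range N, C ((2 * ((i + 2 : ℕ) : ℚ) + 1) * gam (n + 1) (i + 2)) * e (n + 2) (i + 2)
      + ∑ i ∈ range N, C (4 * ((n : ℚ) + 1 - 2 * ((i + 1 : ℕ) : ℚ)) * gam (n + 1) (i + 1)) * e (n + 2) (i + 1 + 1)
      + ∑ i ∈ range N, C ((2 * ((i + 2 : ℕ) : ℚ) ^ 2 + 2 * ((i + 2 : ℕ) : ℚ) + n + 1) * gam n (i + 2)) * e (n + 2) (i + 2)
      + ∑ i ∈ range N, C ((4 * (n : ℚ) + 4 * ((i + 1 : ℕ) : ℚ) * (2 * (n + 2) - 3 - 4 * (((i + 1 : ℕ) : ℚ) + 1))) * gam n (i + 1)) * e (n + 2) (i + 1 + 1)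
      + ∑ i ∈ range N, C (8 * ((n : ℚ) - 2 * i) * ((n : ℚ) - 1 - 2 * i) * gam n i) * e (n + 2) (i + 2) := by
    simp only [← sum_add_distrib]
    apply sum_congr rfl
    intro i _
    rw [show i + 1 + 1 = i + 2 by ring, ← add_mul, ← add_mul, ← add_mul, ← add_mul,
      ← C_add, ← C_add, ← C_add, ← C_add, gam_two']
    congr 2
    push_cast
    ring
  rw [key, gam_one', gam_zero']
  simp only [zero_add, Nat.cast_zero, Nat.cast_one]
  have k1 : (C (3 * gam (n + 1) 1 + 4 * ((n : ℚ) + 1) * gam (n + 1) 0 + (4 + (n : ℚ) + 1) * gam n 1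
      + 4 * (n : ℚ) * gam n 0) : ℚ[X]) = C ((2 * 1 + 1 : ℚ) * gam (n + 1) 1)
      + C (4 * ((n : ℚ) + 1 - 2 * 0) * gam (n + 1) 0) + C ((2 * 1 ^ 2 + 2 * 1 + (n : ℚ) + 1) * gam n 1)
      + C ((4 * (n : ℚ) + 4 * 0 * (2 * (n + 2) - 3 - 4 * (0 + 1))) * gam n 0) := by
    simp only [← C_add]
    congr 1
    ring
  have k0 : (C (gam (n + 1) 0 + ((n : ℚ) + 1) * gam n 0) : ℚ[X]) = C ((2 * 0 + 1 : ℚ) * gam (n + 1) 0)
      + C ((2 * 0 ^ 2 + 2 * 0 + (n : ℚ) + 1) * gam n 0) := by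
    simp only [← C_add]
    congr 1
    ring
  rw [k1, k0]
  ring_nf

end Pool.Agent.X0.InvB
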